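import Pool.Agent.S01104

/-!
A colouring of the free group on countably many generators with nine colours such that for every
colour `i` and all sets `F₁`, `F₂` of at most nine elements some `t` avoids `F₁⁻¹ A_i A_i⁻¹ F₂`.
-/

set_option autoImplicit false

namespace Pool.Agent.H268Z.BiStar

open Pool.Agent.S01104 (Last Low last_mul_letter last_low_mul not_last_one last_of
  exists_low_bound)

/-- The weight of a set of `k` forbidden colours. -/
def psi (k : ℕ) : ℕ := if k = 0 then 0 else 5 ^ (k - 1) * 3 ^ (9 - k)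

lemma psi_step : ∀ k < 10, ∀ k' < 10, (k' = k ∨ k' = k + 1) →
    3 * psi k' ≤ 5 * psi k + 19683 := by
  decide

lemma psi_same (k : ℕ) : 3 * psi k ≤ 5 * psi k := by omega

lemma psi_insert (s : Finset (Fin 9)) (i : Fin 9) :
    3 * psi (insert i s).card ≤ 5 * psi s.card + 19683 := by
  have h1 : s.card < 10 := by
    have := s.card_le_univ
    rw [Fintype.card_fin] at this
    omega
  have h2 : (insert i s).card < 10 := by
    have := (insert i s).card_le_univ
    rw [Fintype.card_fin] at this
    omega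
  apply psi_step _ h1 _ h2
  by_cases hi : i ∈ s
  · left; rw [Finset.insert_eq_of_mem hi]
  · right; rw [Finset.card_insert_of_notMem hi]

lemma exists_color (s : Finset (Fin 9)) (h : psi s.card < 390625) : ∃ i, i ∉ s := by
  by_contra hc
  push Not at hc
  have : s = Finset.univ := Finset.eq_univ_iff_forall.2 hc
  rw [this, Finset.card_univ, Fintype.card_fin] at h
  revert h
  decide

open Classical in
lemma weight_bound (T F' : Finset (FreeGroup ℕ)) (hF' : F'.card ≤ 9)
    (r : FreeGroup ℕ → Finset (Fin 9)) (i : Fin 9) :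
    3 * ∑ x ∈ T, psi (if x ∈ F' then insert i (r x) else r x).card ≤
      5 * ∑ x ∈ T, psi (r x).card + 177147 := by
  rw [Finset.mul_sum, Finset.mul_sum]
  calc ∑ x ∈ T, 3 * psi (if x ∈ F' then insert i (r x) else r x).card
      ≤ ∑ x ∈ T, (5 * psi (r x).card + if x ∈ F' then 19683 else 0) := by
        apply Finset.sum_le_sum
        intro x _
        by_cases hx : x ∈ F'
        · simp only [if_pos hx]
          exact psi_insert _ _
        · simp only [if_neg hx]
          exact psi_same _
    _ = ∑ x ∈ T, 5 * psi (r x).card + ∑ x ∈ T, (if x ∈ F' then 19683 else 0) :=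
        Finset.sum_add_distrib
    _ ≤ ∑ x ∈ T, 5 * psi (r x).card + 177147 := by
        apply Nat.add_le_add_left
        rw [← Finset.sum_filter, Finset.sum_const, smul_eq_mul]
        have : (T.filter (fun x => x ∈ F')).card ≤ F'.card := by
          apply Finset.card_le_card
          intro x hx
          exact (Finset.mem_filter.1 hx).2
        omega

open Classical in
theorem main_aux (col : ℕ → Fin 9) (H F : ℕ → Finset (FreeGroup ℕ))
    (hcardH : ∀ k, (H k).card ≤ 9) (hlowH : ∀ k, ∀ f ∈ H k, Low k f)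
    (hcard : ∀ k, (F k).card ≤ 9) (hlow : ∀ k, ∀ f ∈ F k, Low k f) (n : ℕ) :
    ∀ (E : Finset (FreeGroup ℕ × ℕ)) (T : Finset (FreeGroup ℕ))
      (r : FreeGroup ℕ → Finset (Fin 9)), E.card = n →
      (∑ x ∈ T, psi (r x).card < 390625) → (∀ x, x ∉ T → r x = ∅) →
      (∀ e ∈ E, (∀ f ∈ H e.2, f * (FreeGroup.of e.2 * e.1) ∈ T) ∧ ∀ f ∈ F e.2, f * e.1 ∈ T) →
      ∃ c : FreeGroup ℕ → Fin 9, (∀ x, c x ∉ r x) ∧
        ∀ e ∈ E, ∀ f' ∈ H e.2, ∀ f ∈ F e.2,
          ¬ (c (f' * (FreeGroup.of e.2 * e.1)) = col e.2 ∧ c (f * e.1) = col e.2) := by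
  induction n using Nat.strong_induction_on with
  | _ n ih =>
  intro E T r hn hr hT hE
  rcases E.eq_empty_or_nonempty with hE0 | hne
  · have : ∀ x, ∃ i, i ∉ r x := by
      intro x
      apply exists_color
      by_cases hx : x ∈ T
      · exact lt_of_le_of_lt (Finset.single_le_sum (f := fun x => psi (r x).card)
          (fun _ _ => Nat.zero_le _) hx) hr
      · rw [hT x hx]
        decide
    choose c hc using this
    refine ⟨c, hc, ?_⟩
    intro e he
    rw [hE0] at he
    simp at he
  · obtain ⟨e, he, hmax⟩ := Finset.exists_max_image E (fun e => e.2) hne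
    obtain ⟨g, k⟩ := e
    set i := col k with hi
    set S : FreeGroup ℕ → Prop := fun x => Last k (x * g⁻¹) with hS
    have S_low : ∀ f x, Low k f → (S (f * x) ↔ S x) := by
      intro f x hf
      simp only [hS, mul_assoc]
      exact last_low_mul k f _ hf
    have S_head0 : S (FreeGroup.of k * g) := by
      simp only [hS, mul_inv_cancel_right]
      exact last_of k
    have S_head : ∀ f ∈ H k, S (f * (FreeGroup.of k * g)) := by
      intro f hf
      exact (S_low f _ (hlowH k f hf)).2 S_head0
    have S_tail : ∀ f ∈ F k, ¬ S (f * g) := by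
      intro f hf h
      simp only [hS, mul_inv_cancel_right] at h
      rw [← mul_one f, last_low_mul k f 1 (hlow k f hf)] at h
      exact not_last_one k h
    have S_other_tail : ∀ e' ∈ E, ∀ f ∈ F e'.2, (S (f * e'.1) ↔ S e'.1) := by
      intro e' he' f hf
      apply S_low
      intro p hp
      exact lt_of_lt_of_le (hlow _ f hf p hp) (hmax e' he')
    have S_other_head0 : ∀ e' ∈ E, e' ≠ (g, k) → (S (FreeGroup.of e'.2 * e'.1) ↔ S e'.1) := by
      intro e' he' hne'
      simp only [hS, mul_assoc]
      have : (FreeGroup.of e'.2 : FreeGroup ℕ) = FreeGroup.mk [(e'.2, true)] := rfl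
      rw [this]
      apply last_mul_letter
      by_cases hk : e'.2 = k
      · right
        refine ⟨?_, by rw [hk]⟩
        intro h1
        apply hne'
        have h2 : e'.1 = g := by
          rwa [mul_inv_eq_one] at h1
        exact Prod.ext h2 hk
      · left; exact hk
    have S_other_head : ∀ e' ∈ E, e' ≠ (g, k) → ∀ f ∈ H e'.2,
        (S (f * (FreeGroup.of e'.2 * e'.1)) ↔ S e'.1) := by
      intro e' he' hne' f hf
      rw [← S_other_head0 e' he' hne']
      apply S_low
      intro p hp
      exact lt_of_lt_of_le (hlowH _ f hf p hp) (hmax e' he')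
    set E1 := E.filter (fun e' => e' ≠ (g, k) ∧ ¬ S e'.1) with hE1
    set E2 := E.filter (fun e' => e' ≠ (g, k) ∧ S e'.1) with hE2
    have hE1c : E1.card < n := by
      rw [← hn]
      apply Finset.card_lt_card
      refine ⟨Finset.filter_subset _ _, ?_⟩
      intro hsub
      have := hsub he
      rw [hE1, Finset.mem_filter] at this
      exact this.2.1 rfl
    have hE2c : E2.card < n := by
      rw [← hn]
      apply Finset.card_lt_card
      refine ⟨Finset.filter_subset _ _, ?_⟩
      intro hsub
      have := hsub he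
      rw [hE2, Finset.mem_filter] at this
      exact this.2.1 rfl
    set H' : Finset (FreeGroup ℕ) := (H k).image (fun f => f * (FreeGroup.of k * g)) with hH'
    have hH'c : H'.card ≤ 9 := Finset.card_image_le.trans (hcardH k)
    set F' : Finset (FreeGroup ℕ) := (F k).image (fun f => f * g) with hF'
    have hF'c : F'.card ≤ 9 := Finset.card_image_le.trans (hcard k)
    set r1 : FreeGroup ℕ → Finset (Fin 9) := fun x => if S x then ∅ else r x with hr1
    set r2 : FreeGroup ℕ → Finset (Fin 9) := fun x => if S x then r x else ∅ with hr2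
    set r1' : FreeGroup ℕ → Finset (Fin 9) := fun x => if x ∈ F' then insert i (r1 x) else r1 x
      with hr1'
    set r2' : FreeGroup ℕ → Finset (Fin 9) := fun x => if x ∈ H' then insert i (r2 x) else r2 x
      with hr2'
    have hsum : ∑ x ∈ T, psi (r1 x).card + ∑ x ∈ T, psi (r2 x).card =
        ∑ x ∈ T, psi (r x).card := by
      rw [← Finset.sum_add_distrib]
      apply Finset.sum_congr rfl
      intro x _
      by_cases hSx : S x
      · simp only [hr1, hr2, if_pos hSx, Finset.card_empty]
        simp [psi]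
      · simp only [hr1, hr2, if_neg hSx, Finset.card_empty]
        simp [psi]
    have hw2 : 3 * ∑ x ∈ T, psi (r2' x).card ≤ 5 * ∑ x ∈ T, psi (r2 x).card + 177147 :=
      weight_bound T H' hH'c r2 i
    have hw1 : 3 * ∑ x ∈ T, psi (r1' x).card ≤ 5 * ∑ x ∈ T, psi (r1 x).card + 177147 :=
      weight_bound T F' hF'c r1 i
    have hT1 : ∀ x, x ∉ T → r1 x = ∅ := by
      intro x hx
      simp only [hr1, hT x hx, ite_self]
    have hT2 : ∀ x, x ∉ T → r2 x = ∅ := by
      intro x hx
      simp only [hr2, hT x hx, ite_self]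
    have hT1' : ∀ x, x ∉ T → r1' x = ∅ := by
      intro x hx
      have : x ∉ F' := by
        intro hxF
        rw [hF', Finset.mem_image] at hxF
        obtain ⟨f, hf, rfl⟩ := hxF
        exact hx ((hE _ he).2 f hf)
      simp only [hr1', if_neg this]
      exact hT1 x hx
    have hT2' : ∀ x, x ∉ T → r2' x = ∅ := by
      intro x hx
      have : x ∉ H' := by
        intro hxF
        rw [hH', Finset.mem_image] at hxF
        obtain ⟨f, hf, rfl⟩ := hxF
        exact hx ((hE _ he).1 f hf)
      simp only [hr2', if_neg this]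
      exact hT2 x hx
    have hEE1 : ∀ e ∈ E1, (∀ f ∈ H e.2, f * (FreeGroup.of e.2 * e.1) ∈ T) ∧
        ∀ f ∈ F e.2, f * e.1 ∈ T :=
      fun e' he' => hE e' (Finset.mem_filter.1 he').1
    have hEE2 : ∀ e ∈ E2, (∀ f ∈ H e.2, f * (FreeGroup.of e.2 * e.1) ∈ T) ∧
        ∀ f ∈ F e.2, f * e.1 ∈ T :=
      fun e' he' => hE e' (Finset.mem_filter.1 he').1
    have glue : ∀ c1 c2 : FreeGroup ℕ → Fin 9, (∀ x, c1 x ∉ r1 x) → (∀ x, c2 x ∉ r2 x) →
        (∀ e ∈ E1, ∀ f' ∈ H e.2, ∀ f ∈ F e.2,
          ¬ (c1 (f' * (FreeGroup.of e.2 * e.1)) = col e.2 ∧ c1 (f * e.1) = col e.2)) →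
        (∀ e ∈ E2, ∀ f' ∈ H e.2, ∀ f ∈ F e.2,
          ¬ (c2 (f' * (FreeGroup.of e.2 * e.1)) = col e.2 ∧ c2 (f * e.1) = col e.2)) →
        ((∀ f ∈ H k, c2 (f * (FreeGroup.of k * g)) ≠ i) ∨ ∀ f ∈ F k, c1 (f * g) ≠ i) →
        ∃ c : FreeGroup ℕ → Fin 9, (∀ x, c x ∉ r x) ∧
          ∀ e ∈ E, ∀ f' ∈ H e.2, ∀ f ∈ F e.2,
            ¬ (c (f' * (FreeGroup.of e.2 * e.1)) = col e.2 ∧ c (f * e.1) = col e.2) := by
      intro c1 c2 h1 h2 hc1 hc2 hlast
      refine ⟨fun x => if S x then c2 x else c1 x, ?_, ?_⟩
      · intro x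
        by_cases hSx : S x
        · have := h2 x
          simp only [hr2, if_pos hSx] at this
          simp only [if_pos hSx]
          exact this
        · have := h1 x
          simp only [hr1, if_neg hSx] at this
          simp only [if_neg hSx]
          exact this
      · intro e' he' f' hf' f hf
        by_cases hee : e' = (g, k)
        · subst hee
          rintro ⟨h3, h4⟩
          simp only [if_pos (S_head f' hf')] at h3
          simp only [if_neg (S_tail f hf)] at h4
          rcases hlast with h5 | h5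
          · exact h5 f' hf' h3
          · exact h5 f hf h4
        · by_cases hSe : S e'.1
          · have hmem : e' ∈ E2 := Finset.mem_filter.2 ⟨he', hee, hSe⟩
            have ha := (S_other_head e' he' hee f' hf').2 hSe
            have hb := (S_other_tail e' he' f hf).2 hSe
            simp only [if_pos ha, if_pos hb]
            exact hc2 e' hmem f' hf' f hf
          · have hmem : e' ∈ E1 := Finset.mem_filter.2 ⟨he', hee, hSe⟩
            have ha := fun h => hSe ((S_other_head e' he' hee f' hf').1 h)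
            have hb := fun h => hSe ((S_other_tail e' he' f hf).1 h)
            simp only [if_neg ha, if_neg hb]
            exact hc1 e' hmem f' hf' f hf
    by_cases hcase : ∑ x ∈ T, psi (r2' x).card < 390625
    · obtain ⟨c1, h1, hc1⟩ := ih _ hE1c E1 T r1 rfl (by omega) hT1 hEE1
      obtain ⟨c2, h2, hc2⟩ := ih _ hE2c E2 T r2' rfl hcase hT2' hEE2
      refine glue c1 c2 h1 ?_ hc1 hc2 (Or.inl ?_)
      · intro x hx
        apply h2 x
        simp only [hr2']
        split_ifs
        · exact Finset.mem_insert_of_mem hx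
        · exact hx
      · intro f hf hc
        apply h2 (f * (FreeGroup.of k * g))
        have hm : f * (FreeGroup.of k * g) ∈ H' := Finset.mem_image_of_mem _ hf
        simp only [hr2', if_pos hm]
        rw [hc]
        exact Finset.mem_insert_self _ _
    · have hlt : ∑ x ∈ T, psi (r1' x).card < 390625 := by omega
      obtain ⟨c1, h1, hc1⟩ := ih _ hE1c E1 T r1' rfl hlt hT1' hEE1
      obtain ⟨c2, h2, hc2⟩ := ih _ hE2c E2 T r2 rfl (by omega) hT2 hEE2
      refine glue c1 c2 ?_ h2 hc1 hc2 (Or.inr ?_)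
      · intro x hx
        apply h1 x
        simp only [hr1']
        split_ifs
        · exact Finset.mem_insert_of_mem hx
        · exact hx
      · intro f hf hc
        apply h1 (f * g)
        have hm : f * g ∈ F' := Finset.mem_image_of_mem _ hf
        simp only [hr1', if_pos hm]
        rw [hc]
        exact Finset.mem_insert_self _ _

theorem exists_coloring (col : ℕ → Fin 9) (H F : ℕ → Finset (FreeGroup ℕ))
    (hcardH : ∀ k, (H k).card ≤ 9) (hlowH : ∀ k, ∀ f ∈ H k, Low k f)
    (hcard : ∀ k, (F k).card ≤ 9) (hlow : ∀ k, ∀ f ∈ F k, Low k f) :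
    ∃ c : FreeGroup ℕ → Fin 9, ∀ (g : FreeGroup ℕ) (k : ℕ), ∀ f' ∈ H k, ∀ f ∈ F k,
      ¬ (c (f' * (FreeGroup.of k * g)) = col k ∧ c (f * g) = col k) := by
  classical
  set t : FreeGroup ℕ × ℕ → Set (FreeGroup ℕ → Fin 9) := fun e =>
    {c | ∀ f' ∈ H e.2, ∀ f ∈ F e.2,
      ¬ (c (f' * (FreeGroup.of e.2 * e.1)) = col e.2 ∧ c (f * e.1) = col e.2)} with ht
  have hclosed : ∀ e, IsClosed (t e) := by
    intro e
    have : t e = ⋂ f' ∈ H e.2, ⋂ f ∈ F e.2, {c : FreeGroup ℕ → Fin 9 |
        ¬ (c (f' * (FreeGroup.of e.2 * e.1)) = col e.2 ∧ c (f * e.1) = col e.2)} := by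
      ext c
      simp only [ht, Set.mem_ofPred_eq, Set.mem_iInter]
    rw [this]
    apply isClosed_biInter
    intro f' _
    apply isClosed_biInter
    intro f _
    apply isClosed_compl_iff.2
    have h0 : ∀ x : FreeGroup ℕ, IsOpen {c : FreeGroup ℕ → Fin 9 | c x = col e.2} := by
      intro x
      have hx : Continuous (fun c : FreeGroup ℕ → Fin 9 => c x) := continuous_apply x
      exact (isOpen_discrete ({col e.2} : Set (Fin 9))).preimage hx
    exact (h0 (f' * (FreeGroup.of e.2 * e.1))).inter (h0 (f * e.1))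
  have hne := isCompact_univ.inter_iInter_nonempty (X := FreeGroup ℕ → Fin 9) t hclosed (by
    intro E
    obtain ⟨c, _, hc⟩ := main_aux col H F hcardH hlowH hcard hlow _ E
      (E.biUnion (fun e => (H e.2).image (fun f => f * (FreeGroup.of e.2 * e.1))) ∪
        E.biUnion (fun e => (F e.2).image (fun f => f * e.1))) (fun _ => ∅) rfl
      (by simp [psi]) (fun _ _ => rfl) (by
        intro e he
        refine ⟨?_, ?_⟩
        · intro f hf
          apply Finset.mem_union_left
          rw [Finset.mem_biUnion]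
          exact ⟨e, he, Finset.mem_image_of_mem _ hf⟩
        · intro f hf
          apply Finset.mem_union_right
          rw [Finset.mem_biUnion]
          exact ⟨e, he, Finset.mem_image_of_mem _ hf⟩)
    refine ⟨c, Set.mem_univ _, ?_⟩
    simp only [Set.mem_iInter]
    intro e he
    exact hc e he)
  obtain ⟨c, _, hc⟩ := hne
  refine ⟨c, ?_⟩
  intro g k f' hf' f hf
  exact (Set.mem_iInter.1 hc (g, k)) f' hf' f hf

/-- The colouring. -/
theorem exists_good : ∃ c : FreeGroup ℕ → Fin 9, ∀ (i : Fin 9) (F₁ F₂ : Finset (FreeGroup ℕ)),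
    F₁.card ≤ 9 → F₂.card ≤ 9 → ∃ t : FreeGroup ℕ, ∀ g, ∀ f₁ ∈ F₁, ∀ f₂ ∈ F₂,
      ¬ (c (f₁ * (t * g)) = i ∧ c (f₂ * g) = i) := by
  classical
  have : Encodable (Fin 9 × Finset (FreeGroup ℕ) × Finset (FreeGroup ℕ)) :=
    Encodable.ofCountable _
  set ν : ℕ → Option (Fin 9 × Finset (FreeGroup ℕ) × Finset (FreeGroup ℕ)) := fun k =>
    Encodable.decode (Nat.unpair k).1 with hν
  set col : ℕ → Fin 9 := fun k => ((ν k).getD (0, ∅, ∅)).1 with hcol
  set H0 : ℕ → Finset (FreeGroup ℕ) := fun k => ((ν k).getD (0, ∅, ∅)).2.1 with hH0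
  set F0 : ℕ → Finset (FreeGroup ℕ) := fun k => ((ν k).getD (0, ∅, ∅)).2.2 with hF0
  set H : ℕ → Finset (FreeGroup ℕ) := fun k =>
    if (H0 k).card ≤ 9 ∧ ∀ f ∈ H0 k, Low k f then H0 k else ∅ with hH
  set F : ℕ → Finset (FreeGroup ℕ) := fun k =>
    if (F0 k).card ≤ 9 ∧ ∀ f ∈ F0 k, Low k f then F0 k else ∅ with hF
  obtain ⟨c, hc⟩ := exists_coloring col H F
    (by
      intro k
      simp only [hH]
      split_ifs with h
      · exact h.1
      · simp)
    (by
      intro k f hf
      simp only [hH] at hf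
      split_ifs at hf with h
      · exact h.2 f hf
      · exact absurd hf (Finset.notMem_empty f))
    (by
      intro k
      simp only [hF]
      split_ifs with h
      · exact h.1
      · simp)
    (by
      intro k f hf
      simp only [hF] at hf
      split_ifs at hf with h
      · exact h.2 f hf
      · exact absurd hf (Finset.notMem_empty f))
  refine ⟨c, ?_⟩
  intro i B A hB hA
  obtain ⟨K, hK⟩ := exists_low_bound A
  obtain ⟨K', hK'⟩ := exists_low_bound B
  set k := Nat.pair (Encodable.encode (i, B, A)) (max K K') with hk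
  have hkK : max K K' ≤ k := Nat.right_le_pair _ _
  have hνk : ν k = some (i, B, A) := by
    simp only [hν, hk, Nat.unpair_pair, Encodable.encodek]
  have hcolk : col k = i := by simp only [hcol, hνk, Option.getD_some]
  have hF0k : F0 k = A := by simp only [hF0, hνk, Option.getD_some]
  have hH0k : H0 k = B := by simp only [hH0, hνk, Option.getD_some]
  have hFk : F k = A := by
    simp only [hF]
    rw [if_pos]
    · exact hF0k
    · rw [hF0k]
      exact ⟨hA, hK k ((le_max_left _ _).trans hkK)⟩
  have hHk : H k = B := by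
    simp only [hH]
    rw [if_pos]
    · exact hH0k
    · rw [hH0k]
      exact ⟨hB, hK' k ((le_max_right _ _).trans hkK)⟩
  refine ⟨FreeGroup.of k, ?_⟩
  intro g f' hf' f hf
  have := hc g k f' (by rw [hHk]; exact hf') f (by rw [hFk]; exact hf)
  rwa [hcolk] at this

end Pool.Agent.H268Z.BiStar
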