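import Pool.Agent.H268Z.BiStar

/-!
The colouring of `BiStar` with the additional property that `A_i A_j` is the whole group for all
colours `i`, `j`.
-/

set_option autoImplicit false

namespace Pool.Agent.H268Z.Commute

open Pool.Agent.S01104 (Last Low last_mul_letter last_low_mul not_last_one last_of
  exists_low_bound)
open Pool.Agent.H268Z.BiStar

/-- the data: constraints and demands -/
structure Data where
  col : ℕ → Fin 9
  H : ℕ → Finset (FreeGroup ℕ)
  F : ℕ → Finset (FreeGroup ℕ)
  hcardH : ∀ k, (H k).card ≤ 9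
  hlowH : ∀ k, ∀ f ∈ H k, Low k f
  hcard : ∀ k, (F k).card ≤ 9
  hlow : ∀ k, ∀ f ∈ F k, Low k f
  g : ℕ → FreeGroup ℕ
  hg : ∀ k, Low k (g k)
  dem : ℕ × Bool → Fin 9

namespace Data

variable (D : Data)

/-- the constraint at an edge -/
def Ok (c : FreeGroup ℕ → Fin 9) (e : FreeGroup ℕ × ℕ) : Prop :=
  ∀ f' ∈ D.H e.2, ∀ f ∈ D.F e.2,
    ¬ (c (f' * (FreeGroup.of e.2 * e.1)) = D.col e.2 ∧ c (f * e.1) = D.col e.2)

/-- the forced points -/
def pt (z : ℕ × Bool) : FreeGroup ℕ :=
  if z.2 then FreeGroup.of z.1 else (FreeGroup.of z.1)⁻¹ * D.g z.1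

lemma aux0 (E : Finset (FreeGroup ℕ × ℕ)) (P : Finset (FreeGroup ℕ)) (s : Finset (Fin 9))
    (h : P.card * psi s.card < 390625) :
    ∃ c : FreeGroup ℕ → Fin 9, (∀ x ∈ P, c x ∉ s) ∧ ∀ e ∈ E, D.Ok c e := by
  classical
  obtain ⟨c, h1, h2⟩ := main_aux D.col D.H D.F D.hcardH D.hlowH D.hcard D.hlow _ E
    (P ∪ (E.biUnion (fun e => (D.H e.2).image (fun f => f * (FreeGroup.of e.2 * e.1))) ∪
        E.biUnion (fun e => (D.F e.2).image (fun f => f * e.1))))
    (fun x => if x ∈ P then s else ∅) rfl
    (by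
      refine lt_of_le_of_lt (le_of_eq ?_) h
      rw [← smul_eq_mul, ← Finset.sum_const]
      symm
      refine Finset.sum_subset_zero_on_sdiff Finset.subset_union_left ?_ ?_
      · intro x hx
        rw [if_neg (Finset.mem_sdiff.1 hx).2]
        rfl
      · intro x hx
        rw [if_pos hx])
    (by
      intro x hx
      rw [if_neg]
      exact fun h => hx (Finset.mem_union_left _ h))
    (by
      intro e he
      refine ⟨?_, ?_⟩
      · intro f hf
        apply Finset.mem_union_right
        apply Finset.mem_union_left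
        rw [Finset.mem_biUnion]
        exact ⟨e, he, Finset.mem_image_of_mem _ hf⟩
      · intro f hf
        apply Finset.mem_union_right
        apply Finset.mem_union_right
        rw [Finset.mem_biUnion]
        exact ⟨e, he, Finset.mem_image_of_mem _ hf⟩)
  refine ⟨c, fun x hx => ?_, h2⟩
  have := h1 x
  rwa [if_pos hx] at this

lemma aux1 (E : Finset (FreeGroup ℕ × ℕ)) (P : Finset (FreeGroup ℕ)) (hP : P.card ≤ 9)
    (i : Fin 9) : ∃ c : FreeGroup ℕ → Fin 9, (∀ x ∈ P, c x ≠ i) ∧ ∀ e ∈ E, D.Ok c e := by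
  obtain ⟨c, h1, h2⟩ := D.aux0 E P {i} (by
    have : psi ({i} : Finset (Fin 9)).card = 6561 := by
      rw [Finset.card_singleton]; decide
    rw [this]; omega)
  exact ⟨c, fun x hx => by simpa using h1 x hx, h2⟩

lemma aux2 (E : Finset (FreeGroup ℕ × ℕ)) (z : FreeGroup ℕ) (i : Fin 9) :
    ∃ c : FreeGroup ℕ → Fin 9, c z = i ∧ ∀ e ∈ E, D.Ok c e := by
  obtain ⟨c, h1, h2⟩ := D.aux0 E {z} (Finset.univ.erase i) (by
    have : psi (Finset.univ.erase i).card = 234375 := by
      rw [Finset.card_erase_of_mem (Finset.mem_univ _), Finset.card_univ, Fintype.card_fin]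
      decide
    rw [this, Finset.card_singleton]; omega)
  exact ⟨c, by simpa using h1 z (Finset.mem_singleton_self z), h2⟩

lemma low_mono {k l : ℕ} {f : FreeGroup ℕ} (h : Low k f) (hkl : k ≤ l) : Low l f :=
  fun p hp => lt_of_lt_of_le (h p hp) hkl

lemma last_of_mul {k l : ℕ} {y : FreeGroup ℕ} (h : l ≠ k ∨ y ≠ 1) :
    Last k (FreeGroup.of l * y) ↔ Last k y := by
  have : (FreeGroup.of l : FreeGroup ℕ) = FreeGroup.mk [(l, true)] := rfl
  rw [this]
  apply last_mul_letter
  by_cases hk : l = k
  · right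
    rcases h with h | h
    · exact absurd hk h
    · exact ⟨h, by rw [hk]⟩
  · left; exact hk

open Classical in
lemma glue (g : FreeGroup ℕ) (k : ℕ) (c1 c2 : FreeGroup ℕ → Fin 9) (e : FreeGroup ℕ × ℕ)
    (hk : e.2 ≤ k) (hne : e ≠ (g, k)) (h1 : D.Ok c1 e) (h2 : D.Ok c2 e) :
    D.Ok (fun x => if Last k (x * g⁻¹) then c2 x else c1 x) e := by
  intro f' hf' f hf
  have ha : Last k (f * e.1 * g⁻¹) ↔ Last k (e.1 * g⁻¹) := by
    rw [mul_assoc]
    exact last_low_mul k f _ (low_mono (D.hlow _ f hf) hk)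
  have hb : Last k (f' * (FreeGroup.of e.2 * e.1) * g⁻¹) ↔ Last k (e.1 * g⁻¹) := by
    rw [mul_assoc, last_low_mul k f' _ (low_mono (D.hlowH _ f' hf') hk), mul_assoc]
    apply last_of_mul
    by_cases hk' : e.2 = k
    · right
      intro h
      exact hne (Prod.ext (mul_inv_eq_one.1 h) hk')
    · left; exact hk'
  by_cases hS : Last k (e.1 * g⁻¹)
  · simp only [if_pos (ha.2 hS), if_pos (hb.2 hS)]
    exact h2 f' hf' f hf
  · simp only [if_neg (fun h => hS (ha.1 h)), if_neg (fun h => hS (hb.1 h))]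
    exact h1 f' hf' f hf

lemma last_pt_low {k : ℕ} {z : ℕ × Bool} (hz : z.1 < k) (y : FreeGroup ℕ) :
    Last k (D.pt z * y) ↔ Last k y := by
  unfold pt
  split_ifs
  · exact last_of_mul (Or.inl hz.ne)
  · rw [← last_of_mul (Or.inl hz.ne) (l := z.1), mul_assoc, mul_inv_cancel_left]
    exact last_low_mul k _ _ (low_mono (D.hg _) hz.le)

lemma not_last_g (k : ℕ) : ¬ Last k (D.g k) := by
  rw [← mul_one (D.g k), last_low_mul k _ _ (D.hg k)]
  exact not_last_one k

lemma pt_false_ne (k : ℕ) : (FreeGroup.of k)⁻¹ * D.g k ≠ 1 := by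
  intro h
  apply D.not_last_g k
  rw [← inv_mul_eq_one.1 h]
  exact last_of k

theorem root (n : ℕ) : ∀ (E : Finset (FreeGroup ℕ × ℕ)) (Z : Finset (ℕ × Bool)),
    E.card + Z.card = n → (∀ z ∈ Z, D.H z.1 = ∅) →
    ∃ c : FreeGroup ℕ → Fin 9, (∀ z ∈ Z, c (D.pt z) = D.dem z) ∧ ∀ e ∈ E, D.Ok c e := by
  classical
  induction n using Nat.strong_induction_on with
  | _ n ih =>
  intro E Z hn hZ
  rcases Z.eq_empty_or_nonempty with rfl | hZne
  · obtain ⟨c, -, hc⟩ := D.aux1 E ∅ (by simp) 0
    exact ⟨c, by simp, hc⟩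
  obtain ⟨z, hz, hzmax⟩ := Finset.exists_max_image Z (fun z => z.1) hZne
  by_cases hE : ∃ e ∈ E, z.1 ≤ e.2
  · obtain ⟨e0, he0, he0z⟩ := hE
    obtain ⟨⟨g, k⟩, he, hmax⟩ := Finset.exists_max_image E (fun e => e.2) ⟨e0, he0⟩
    have hzk : z.1 ≤ k := he0z.trans (hmax e0 he0)
    obtain ⟨c1, h1, hc1⟩ := ih _ (by
      rw [← hn, Finset.card_erase_of_mem he]
      have := Finset.card_pos.2 ⟨_, he⟩
      omega) (E.erase (g, k)) Z rfl hZ
    by_cases hH : D.H k = ∅
    · refine ⟨c1, h1, fun e he' => ?_⟩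
      by_cases hee : e = (g, k)
      · subst hee
        intro f' hf'
        rw [hH] at hf'
        simp at hf'
      · exact hc1 e (Finset.mem_erase.2 ⟨hee, he'⟩)
    have hlt : ∀ w ∈ Z, w.1 < k := by
      intro w hw
      refine lt_of_le_of_ne ((hzmax w hw).trans hzk) fun h => hH ?_
      rw [← h]
      exact hZ w hw
    have S_head : ∀ f ∈ D.H k, Last k (f * (FreeGroup.of k * g) * g⁻¹) := by
      intro f hf
      rw [mul_assoc, last_low_mul k f _ (D.hlowH k f hf), mul_inv_cancel_right]
      exact last_of k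
    have S_tail : ∀ f ∈ D.F k, ¬ Last k (f * g * g⁻¹) := by
      intro f hf
      rw [mul_assoc, last_low_mul k f _ (D.hlow k f hf), mul_inv_cancel]
      exact not_last_one k
    by_cases hroot : Last k g⁻¹
    · obtain ⟨c2, h2, hc2⟩ := D.aux1 (E.erase (g, k)) ((D.F k).image fun f => f * g)
        (Finset.card_image_le.trans (D.hcard k)) (D.col k)
      refine ⟨fun x => if Last k (x * g⁻¹) then c1 x else c2 x, fun w hw => ?_, fun e he' => ?_⟩
      · simp only [if_pos ((D.last_pt_low (hlt w hw) _).2 hroot)]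
        exact h1 w hw
      · by_cases hee : e = (g, k)
        · subst hee
          rintro f' hf' f hf ⟨-, h4⟩
          simp only [if_neg (S_tail f hf)] at h4
          exact h2 _ (Finset.mem_image_of_mem _ hf) h4
        · have hm := Finset.mem_erase.2 ⟨hee, he'⟩
          exact D.glue g k c2 c1 e (hmax e he') hee (hc2 e hm) (hc1 e hm)
    · obtain ⟨c2, h2, hc2⟩ := D.aux1 (E.erase (g, k))
        ((D.H k).image fun f => f * (FreeGroup.of k * g))
        (Finset.card_image_le.trans (D.hcardH k)) (D.col k)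
      refine ⟨fun x => if Last k (x * g⁻¹) then c2 x else c1 x, fun w hw => ?_, fun e he' => ?_⟩
      · simp only [if_neg (fun h => hroot ((D.last_pt_low (hlt w hw) _).1 h))]
        exact h1 w hw
      · by_cases hee : e = (g, k)
        · subst hee
          rintro f' hf' f hf ⟨h3, -⟩
          simp only [if_pos (S_head f' hf')] at h3
          exact h2 _ (Finset.mem_image_of_mem _ hf') h3
        · have hm := Finset.mem_erase.2 ⟨hee, he'⟩
          exact D.glue g k c1 c2 e (hmax e he') hee (hc1 e hm) (hc2 e hm)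
  · push Not at hE
    obtain ⟨c1, h1, hc1⟩ := ih _ (by
      rw [← hn, Finset.card_erase_of_mem hz]
      have := Finset.card_pos.2 ⟨_, hz⟩
      omega) E (Z.erase z) rfl (fun w hw => hZ w (Finset.mem_of_mem_erase hw))
    obtain ⟨c2, h2, hc2⟩ := D.aux2 E (D.pt z) (D.dem z)
    obtain ⟨k, b⟩ := z
    have hEne : ∀ g, ∀ e ∈ E, e ≠ (g, k) := by
      rintro g e he rfl
      exact lt_irrefl _ (hE _ he)
    cases b
    · have hs : Last k ((FreeGroup.of k)⁻¹ * D.g k)⁻¹ := by
        rw [← last_low_mul k _ _ (D.hg k), mul_inv_rev, mul_inv_cancel_left, inv_inv]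
        exact last_of k
      refine ⟨fun x => if Last k (x * ((FreeGroup.of k)⁻¹ * D.g k)⁻¹) then c1 x else c2 x,
        fun w hw => ?_, fun e he => ?_⟩
      · by_cases hwz : w = (k, false)
        · subst hwz
          have : ¬ Last k (D.pt (k, false) * ((FreeGroup.of k)⁻¹ * D.g k)⁻¹) := by
            simp only [pt, Bool.false_eq_true, if_false, mul_inv_cancel]
            exact not_last_one k
          simp only [if_neg this]
          exact h2
        · have : Last k (D.pt w * ((FreeGroup.of k)⁻¹ * D.g k)⁻¹) := by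
            rcases lt_or_eq_of_le (hzmax w hw) with h | h
            · exact (D.last_pt_low h _).2 hs
            · obtain ⟨k', b'⟩ := w
              obtain rfl : k' = k := h
              cases b'
              · exact absurd rfl hwz
              · simp only [pt, if_true]
                exact (last_of_mul (Or.inr (inv_ne_one.2 (D.pt_false_ne k')))).2 hs
          simp only [if_pos this]
          exact h1 w (Finset.mem_erase.2 ⟨hwz, hw⟩)
      · exact D.glue _ k c2 c1 e (hE e he).le (hEne _ e he) (hc2 e he) (hc1 e he)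
    · refine ⟨fun x => if Last k (x * (1 : FreeGroup ℕ)⁻¹) then c2 x else c1 x,
        fun w hw => ?_, fun e he => ?_⟩
      · by_cases hwz : w = (k, true)
        · subst hwz
          have : Last k (D.pt (k, true) * (1 : FreeGroup ℕ)⁻¹) := by
            simp only [pt, if_true, inv_one, mul_one]
            exact last_of k
          simp only [if_pos this]
          exact h2
        · have : ¬ Last k (D.pt w * (1 : FreeGroup ℕ)⁻¹) := by
            rcases lt_or_eq_of_le (hzmax w hw) with h | h
            · rw [D.last_pt_low h, inv_one]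
              exact not_last_one k
            · obtain ⟨k', b'⟩ := w
              obtain rfl : k' = k := h
              cases b'
              · simp only [pt, Bool.false_eq_true, if_false, inv_one, mul_one]
                rw [← last_of_mul (Or.inr (D.pt_false_ne k')) (l := k'), mul_inv_cancel_left]
                exact D.not_last_g k'
              · exact absurd rfl hwz
          simp only [if_neg this]
          exact h1 w (Finset.mem_erase.2 ⟨hwz, hw⟩)
      · exact D.glue _ k c1 c2 e (hE e he).le (hEne _ e he) (hc1 e he) (hc2 e he)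

theorem exists_coloring : ∃ c : FreeGroup ℕ → Fin 9,
    (∀ z, D.H z.1 = ∅ → c (D.pt z) = D.dem z) ∧ ∀ e, D.Ok c e := by
  classical
  have h0 : ∀ (x : FreeGroup ℕ) (i : Fin 9), IsClopen {c : FreeGroup ℕ → Fin 9 | c x = i} := by
    intro x i
    have hx : Continuous (fun c : FreeGroup ℕ → Fin 9 => c x) := continuous_apply x
    exact (isClopen_discrete ({i} : Set (Fin 9))).preimage hx
  let t : (FreeGroup ℕ × ℕ) × (ℕ × Bool) → Set (FreeGroup ℕ → Fin 9) := fun p =>
    {c | D.Ok c p.1} ∩ {c | D.H p.2.1 = ∅ → c (D.pt p.2) = D.dem p.2}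
  have hclosed : ∀ p, IsClosed (t p) := by
    rintro ⟨e, z⟩
    refine IsClosed.inter ?_ ?_
    · have : {c | D.Ok c e} = ⋂ f' ∈ D.H e.2, ⋂ f ∈ D.F e.2, {c : FreeGroup ℕ → Fin 9 |
          ¬ (c (f' * (FreeGroup.of e.2 * e.1)) = D.col e.2 ∧ c (f * e.1) = D.col e.2)} := by
        ext c
        simp only [Ok, Set.mem_ofPred_eq, Set.mem_iInter]
      rw [this]
      refine isClosed_biInter fun f' _ => isClosed_biInter fun f _ => ?_
      exact isClosed_compl_iff.2 ((h0 _ _).isOpen.inter (h0 _ _).isOpen)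
    · by_cases h : D.H z.1 = ∅
      · simp only [h, forall_true_left]
        exact (h0 _ _).isClosed
      · simp only [h, IsEmpty.forall_iff]
        exact isClosed_univ
  have hne := isCompact_univ.inter_iInter_nonempty (X := FreeGroup ℕ → Fin 9) t hclosed (by
    intro P
    obtain ⟨c, h1, h2⟩ := D.root _ (P.image Prod.fst)
      ((P.image Prod.snd).filter fun z => D.H z.1 = ∅) rfl
      (fun z hz => (Finset.mem_filter.1 hz).2)
    refine ⟨c, Set.mem_univ _, ?_⟩
    simp only [Set.mem_iInter]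
    intro p hp
    exact ⟨h2 _ (Finset.mem_image_of_mem _ hp), fun h =>
      h1 _ (Finset.mem_filter.2 ⟨Finset.mem_image_of_mem _ hp, h⟩)⟩)
  obtain ⟨c, -, hc⟩ := hne
  rw [Set.mem_iInter] at hc
  exact ⟨c, fun z => (hc ((1, 0), z)).2, fun e => (hc (e, (0, true))).1⟩

end Data

lemma low_one (k : ℕ) : Low k 1 := by
  intro p hp
  rw [FreeGroup.toWord_one] at hp
  simp at hp

theorem exists_good : ∃ c : FreeGroup ℕ → Fin 9,
    (∀ (i : Fin 9) (F₁ : Finset (FreeGroup ℕ)), F₁.card ≤ 9 → ∃ t : FreeGroup ℕ,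
      ∀ g, ∀ f₁ ∈ F₁, ¬ (c (f₁ * (t * g)) = i ∧ c g = i)) ∧
    ∀ (i j : Fin 9) (g : FreeGroup ℕ), ∃ a, c a = i ∧ c (a⁻¹ * g) = j := by
  classical
  have : Encodable (Fin 9 × Fin 9 × Finset (FreeGroup ℕ) × FreeGroup ℕ) :=
    Encodable.ofCountable _
  set ν : ℕ → Fin 9 × Fin 9 × Finset (FreeGroup ℕ) × FreeGroup ℕ := fun k =>
    (Encodable.decode (Nat.unpair k).1).getD (0, 0, ∅, 1) with hν
  have hνk : ∀ p K, ∃ k, K ≤ k ∧ ν k = p := fun p K =>
    ⟨Nat.pair (Encodable.encode p) K, Nat.right_le_pair _ _, by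
      simp only [hν, Nat.unpair_pair, Encodable.encodek, Option.getD_some]⟩
  let D : Data :=
    { col := fun k => (ν k).1
      H := fun k => if ((ν k).2.2.1).card ≤ 9 ∧ ∀ f ∈ (ν k).2.2.1, Low k f then (ν k).2.2.1 else ∅
      F := fun _ => {1}
      hcardH := by
        intro k
        split_ifs with h
        · exact h.1
        · simp
      hlowH := by
        intro k f hf
        split_ifs at hf with h
        · exact h.2 f hf
        · exact absurd hf (Finset.notMem_empty f)
      hcard := by simp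
      hlow := by
        intro k f hf
        rw [Finset.mem_singleton.1 hf]
        exact low_one k
      g := fun k => if Low k (ν k).2.2.2 then (ν k).2.2.2 else 1
      hg := by
        intro k
        split_ifs with h
        · exact h
        · exact low_one k
      dem := fun z => if z.2 then (ν z.1).1 else (ν z.1).2.1 }
  obtain ⟨c, h1, h2⟩ := D.exists_coloring
  refine ⟨c, fun i A hA => ?_, fun i j g => ?_⟩
  · obtain ⟨K, hK⟩ := exists_low_bound A
    obtain ⟨k, hk, hp⟩ := hνk (i, 0, A, 1) K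
    have hH : D.H k = A := by
      simp only [D, hp]
      rw [if_pos ⟨hA, hK k hk⟩]
    have hcol : D.col k = i := by simp only [D, hp]
    refine ⟨FreeGroup.of k, fun g f hf => ?_⟩
    have := h2 (g, k) f (by rw [hH]; exact hf) 1 (Finset.mem_singleton_self _)
    rwa [hcol, one_mul] at this
  · obtain ⟨K, hK⟩ := exists_low_bound {g}
    obtain ⟨k, hk, hp⟩ := hνk (i, j, ∅, g) K
    have hH : D.H k = ∅ := by
      simp only [D, hp, ite_self]
    have hg : D.g k = g := by
      simp only [D, hp]
      rw [if_pos (hK k hk g (Finset.mem_singleton_self _))]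
    refine ⟨FreeGroup.of k, ?_, ?_⟩
    · have := h1 (k, true) hH
      simpa [Data.pt, D, hp] using this
    · have := h1 (k, false) hH
      simp only [Data.pt, Bool.false_eq_true, if_false, hg] at this
      simpa [D, hp] using this

end Pool.Agent.H268Z.Commute
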