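import Pool.Agent.H97Z.JE.Defs

set_option autoImplicit false

open MeasureTheory Filter Finset
open scoped BigOperators Topology ComplexConjugate
open Pool.Agent.H97Z.JE

noncomputable section

namespace Pool.Agent.H268Z.JE

variable {X : Type} [MeasurableSpace X]

/-- The integer action generated by an invertible measure preserving map. -/
def sysOf (μ : Measure X) [IsProbabilityMeasure μ] (T : X ≃ᵐ X) (hT : MeasurePreserving T μ μ) :
    Sys X where
  μ := μ
  prob := inferInstance
  T := fun m => ⇑((T.toEquiv : Equiv.Perm X) ^ m)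
  zero := fun x => by simp
  add := fun a b x => by rw [zpow_add]; rfl
  mp := by
    intro a
    rcases Int.eq_nat_or_neg a with ⟨n, rfl | rfl⟩
    · rw [zpow_natCast, ← Equiv.Perm.iterate_eq_pow]
      exact hT.iterate n
    · rw [zpow_neg, zpow_natCast, ← inv_pow, ← Equiv.Perm.iterate_eq_pow]
      exact (hT.symm T).iterate n

theorem sysOf_nat (μ : Measure X) [IsProbabilityMeasure μ] (T : X ≃ᵐ X)
    (hT : MeasurePreserving T μ μ) (n : ℕ) : (sysOf μ T hT).T n = (⇑T)^[n] := by
  show ⇑((T.toEquiv : Equiv.Perm X) ^ (n : ℤ)) = _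
  rw [zpow_natCast, ← Equiv.Perm.iterate_eq_pow]
  rfl

theorem erg_of (he : S_eig) (S : Sys X) (h : Ergodic (S.T 1) S.μ) : Erg S := by
  intro G hG ε hε
  obtain ⟨χ, hχ, h1, h2, h3⟩ := he X S 1 1 G (by simp) hG
  obtain ⟨H, hH, h4⟩ := h3 ε hε
  refine ⟨H, hH, ?_⟩
  obtain ⟨c, hc⟩ := h.toPreErgodic.ae_eq_const_of_ae_eq_comp hχ.1
    (funext fun x => by simpa using h1 x)
  have e1 : ∫ x, G x ∂S.μ = c := by
    have := h2 (fun _ => 1) ⟨measurable_const, fun _ => by simp⟩ (fun _ => by simp)
    simp only [map_one, mul_one] at this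
    rw [this, integral_congr_ae hc]
    simp
  have e2 : ∫ x, ‖χ x‖ ^ 2 ∂S.μ = ‖c‖ ^ 2 := by
    have : (fun x => ‖χ x‖ ^ 2) =ᵐ[S.μ] fun _ => ‖c‖ ^ 2 := by
      filter_upwards [hc] with x hx
      rw [hx]; rfl
    rw [integral_congr_ae this]
    simp
  rw [e1, ← e2]
  simpa using h4

theorem av_eq {k : ℕ} (S : Sys X) (c : Fin k → ℝ) (f : Fin k → X → ℂ) (N : ℕ) (x : X) :
    Av S c 1 f N x = (∑ n ∈ Icc 1 N, ∏ i, f i (S.T (aa (c i) n) x)) / N := by
  simp [Av, expect_eq_sum_div_card]

theorem av_B1 {k : ℕ} (S : Sys X) (c : Fin k → ℝ) (f : Fin k → X → ℂ) (hf : ∀ i, B1 (f i))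
    (N : ℕ) : B1 (Av S c 1 f N) := by
  constructor
  · have : Av S c 1 f N = fun x => (∑ n ∈ Icc 1 N, ∏ i, f i (S.T (aa (c i) n) x)) / N :=
      funext (av_eq S c f N)
    rw [this]
    refine Measurable.div_const (Finset.measurable_sum _ fun n _ =>
      Finset.measurable_prod _ fun i _ => ?_) _
    exact (hf i).1.comp (S.mp _).measurable
  · intro x
    rw [av_eq, norm_div, Complex.norm_natCast]
    refine div_le_one_of_le₀ ?_ (Nat.cast_nonneg N)
    refine (norm_sum_le _ _).trans ?_
    calc ∑ n ∈ Icc 1 N, ‖∏ i, f i (S.T (aa (c i) n) x)‖ ≤ ∑ _n ∈ Icc 1 N, (1 : ℝ) := by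
          refine Finset.sum_le_sum fun n _ => ?_
          rw [norm_prod]
          exact Finset.prod_le_one (fun _ _ => norm_nonneg _) fun i _ => (hf i).2 _
      _ = N := by simp

theorem int_sq (μ : Measure X) [IsProbabilityMeasure μ] {u : X → ℂ} (hu : Measurable u) (C : ℝ)
    (h : ∀ x, ‖u x‖ ≤ C) : Integrable (fun x => ‖u x‖ ^ 2) μ := by
  refine Integrable.of_bound (hu.norm.pow_const 2).aestronglyMeasurable (C ^ 2)
    (Eventually.of_forall fun x => ?_)
  rw [Real.norm_eq_abs, abs_of_nonneg (by positivity)]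
  exact pow_le_pow_left₀ (norm_nonneg _) (h x) 2

theorem small (hc : S_char) {k : ℕ} (c : Fin k → ℝ) (hok : Ok c) (S : Sys X) (hE : Erg S)
    (htot : ∀ n : ℕ, 1 ≤ n → Ergodic (S.T n) S.μ) (f : Fin k → X → ℂ) (hf : ∀ i, B1 (f i))
    (j : Fin k) (hj : ∫ x, f j x ∂S.μ = 0) :
    Tendsto (fun N => ∫ x, ‖Av S c 1 f N x‖ ^ 2 ∂S.μ) atTop (𝓝 0) := by
  rw [Metric.tendsto_nhds]
  intro δ hδ
  obtain ⟨Q, hQ, h⟩ := hc k c hok (δ / 2) (by positivity)
  have := h X S hE 1 f j (fun _ => by simp) hf (by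
    intro χ ζ hχ hEig hζ
    obtain ⟨a, ha⟩ := (htot Q hQ).toPreErgodic.ae_eq_const_of_ae_eq_comp hχ.1 (funext fun x => by
      have h1 := hEig.2 Q x
      simp only [Pi.one_apply, mul_one] at hζ
      rw [zpow_natCast, hζ, one_mul] at h1
      exact h1)
    have : (fun x => f j x * conj (χ x)) =ᵐ[S.μ] fun x => f j x * conj a := by
      filter_upwards [ha] with x hx
      rw [hx]; rfl
    rw [integral_congr_ae this, integral_mul_const, hj, zero_mul])
  filter_upwards [this] with N hN
  rw [Real.dist_eq, sub_zero, abs_of_nonneg (integral_nonneg fun x => by positivity)]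
  linarith

theorem norm_int_le (S : Sys X) {f : X → ℂ} (hf : B1 f) : ‖∫ x, f x ∂S.μ‖ ≤ 1 := by
  have := norm_integral_le_of_norm_le_const (μ := S.μ) (f := f) (C := 1)
    (Eventually.of_forall hf.2)
  simpa using this

theorem complex_case (hc : S_char) {k : ℕ} (c : Fin k → ℝ) (hok : Ok c) (S : Sys X) (hE : Erg S)
    (htot : ∀ n : ℕ, 1 ≤ n → Ergodic (S.T n) S.μ) (f : Fin k → X → ℂ) (hf : ∀ i, B1 (f i)) :
    Tendsto (fun N => ∫ x, ‖Av S c 1 f N x - ∏ i, ∫ y, f i y ∂S.μ‖ ^ 2 ∂S.μ) atTop (𝓝 0) := by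
  classical
  let g : Finset (Fin k) → Fin k → X → ℂ := fun s i x => if i ∈ s then ∫ y, f i y ∂S.μ else f i x
  have hg : ∀ s i, B1 (g s i) := by
    intro s i
    by_cases h : i ∈ s
    · simp only [g, if_pos h]
      exact ⟨measurable_const, fun _ => norm_int_le S (hf i)⟩
    · simp only [g, if_neg h]
      exact hf i
  have key : ∀ s : Finset (Fin k),
      Tendsto (fun N => ∫ x, ‖Av S c 1 f N x - Av S c 1 (g s) N x‖ ^ 2 ∂S.μ) atTop (𝓝 0) := by
    intro s
    induction s using Finset.induction_on with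
    | empty =>
      have : g ∅ = f := by
        funext i x
        simp [g]
      simp [this]
    | insert j s hj ih =>
      let u : Fin k → X → ℂ :=
        Function.update (g s) j fun x => (f j x - ∫ y, f j y ∂S.μ) / 2
      have hu : ∀ i, B1 (u i) := by
        intro i
        by_cases h : i = j
        · subst h
          simp only [u, Function.update_self]
          refine ⟨((hf i).1.sub measurable_const).div_const _, fun x => ?_⟩
          have := norm_sub_le (f i x) (∫ y, f i y ∂S.μ)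
          have := (hf i).2 x
          have := norm_int_le S (hf i)
          rw [norm_div, Complex.norm_two]
          linarith
        · simp only [u, Function.update_of_ne h]
          exact hg s i
      have hu0 : ∫ x, u j x ∂S.μ = 0 := by
        simp only [u, Function.update_self]
        have hi : Integrable (f j) S.μ :=
          Integrable.of_bound (hf j).1.aestronglyMeasurable 1 (Eventually.of_forall (hf j).2)
        rw [integral_div, integral_sub hi (integrable_const _)]
        simp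
      have hs := small hc c hok S hE htot u hu j hu0
      have hd : ∀ N x, Av S c 1 (g s) N x - Av S c 1 (g (insert j s)) N x = 2 * Av S c 1 u N x := by
        intro N x
        rw [av_eq, av_eq, av_eq, ← sub_div, ← Finset.sum_sub_distrib, ← mul_div_assoc,
          Finset.mul_sum]
        congr 1
        refine Finset.sum_congr rfl fun n _ => ?_
        rw [← Finset.mul_prod_erase _ _ (Finset.mem_univ j),
          ← Finset.mul_prod_erase _ _ (Finset.mem_univ j),
          ← Finset.mul_prod_erase _ _ (Finset.mem_univ j)]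
        have e1 : ∏ i ∈ univ.erase j, g (insert j s) i (S.T (aa (c i) n) x) =
            ∏ i ∈ univ.erase j, g s i (S.T (aa (c i) n) x) := by
          refine Finset.prod_congr rfl fun i hi => ?_
          have := Finset.ne_of_mem_erase hi
          simp [g, this]
        have e2 : ∏ i ∈ univ.erase j, u i (S.T (aa (c i) n) x) =
            ∏ i ∈ univ.erase j, g s i (S.T (aa (c i) n) x) := by
          refine Finset.prod_congr rfl fun i hi => ?_
          simp only [u, Function.update_of_ne (Finset.ne_of_mem_erase hi)]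
        rw [e1, e2]
        simp only [u, Function.update_self, g, if_neg hj, if_pos (Finset.mem_insert_self j s)]
        ring
      have lim := (ih.const_mul 2).add (hs.const_mul 8)
      rw [mul_zero, mul_zero, add_zero] at lim
      refine squeeze_zero (fun N => integral_nonneg fun x => by positivity) (fun N => ?_) lim
      have a1 := av_B1 S c f hf N
      have a2 := av_B1 S c (g s) (hg s) N
      have a3 := av_B1 S c u hu N
      have i1 : Integrable (fun x => ‖Av S c 1 f N x - Av S c 1 (g s) N x‖ ^ 2) S.μ :=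
        int_sq S.μ (a1.1.sub a2.1) 2 (fun x => (norm_sub_le _ _).trans (by
        linarith [a1.2 x, a2.2 x]))
      have i2 := int_sq S.μ a3.1 1 a3.2
      rw [← integral_const_mul, ← integral_const_mul,
        ← integral_add (i1.const_mul 2) (i2.const_mul 8)]
      refine integral_mono_of_nonneg (Eventually.of_forall fun x => by positivity)
        ((i1.const_mul 2).add (i2.const_mul 8)) (Eventually.of_forall fun x => ?_)
      have e : Av S c 1 f N x - Av S c 1 (g (insert j s)) N x =
          (Av S c 1 f N x - Av S c 1 (g s) N x) + 2 * Av S c 1 u N x := by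
        rw [← hd]; ring
      have b1 := norm_add_le (Av S c 1 f N x - Av S c 1 (g s) N x) (2 * Av S c 1 u N x)
      rw [norm_mul, Complex.norm_two, ← e] at b1
      have b2 := pow_le_pow_left₀ (norm_nonneg _) b1 2
      simp only
      nlinarith [sq_nonneg (‖Av S c 1 f N x - Av S c 1 (g s) N x‖ - 2 * ‖Av S c 1 u N x‖)]
  refine (key univ).congr' ?_
  filter_upwards [eventually_ge_atTop 1] with N hN
  refine integral_congr_ae (Eventually.of_forall fun x => ?_)
  have hN' : (N : ℂ) ≠ 0 := by exact_mod_cast (by omega : N ≠ 0)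
  have : Av S c 1 (g univ) N x = ∏ i, ∫ y, f i y ∂S.μ := by
    rw [av_eq]
    simp [g, hN']
  simp only [this]

theorem rep (μ : Measure X) {f : X → ℝ} (hf : MemLp f ⊤ μ) :
    ∃ (M : ℝ) (g : X → ℝ), 0 < M ∧ Measurable g ∧ (∀ x, |g x| ≤ 1) ∧
      f =ᵐ[μ] fun x => M * g x := by
  have h1 := hf.eLpNorm_lt_top
  rw [eLpNorm_exponent_top, eLpNormEssSup_lt_top_iff_isBoundedUnder] at h1
  obtain ⟨C, hC⟩ := h1
  have hC' : ∀ᵐ x ∂μ, ‖f x‖₊ ≤ C := hC
  have hm := hf.aestronglyMeasurable.aemeasurable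
  have hM : (0 : ℝ) < C + 1 := by positivity
  refine ⟨C + 1, fun x => max (-1) (min 1 (hm.mk f x / (C + 1))), hM, ?_, fun x => ?_, ?_⟩
  · exact measurable_const.max (measurable_const.min (hm.measurable_mk.div_const _))
  · rw [abs_le]
    exact ⟨le_max_left _ _, max_le (by norm_num) (min_le_left _ _)⟩
  · filter_upwards [hC', hm.ae_eq_mk] with x h1 h2
    have h3 : |f x| ≤ C := by exact_mod_cast h1
    rw [abs_le] at h3
    rw [← h2, min_eq_right (by rw [div_le_one hM]; linarith [h3.2]),
      max_eq_right (by rw [le_div_iff₀ hM]; linarith [h3.1])]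
    field_simp

theorem fin06195 (hc : S_char) (he : S_eig) :
    ∀ (k : ℕ) (c : Fin k → ℝ), Function.Injective c → (∀ i, 0 < c i) →
      (∀ i, ∀ m : ℤ, c i ≠ (m : ℝ)) →
      ∀ (X : Type) [MeasurableSpace X] (μ : MeasureTheory.Measure X)
        [MeasureTheory.IsProbabilityMeasure μ] (T : X ≃ᵐ X),
        MeasureTheory.MeasurePreserving T μ μ →
        (∀ n : ℕ, 1 ≤ n → Ergodic ((⇑T)^[n]) μ) →
        ∀ f : Fin k → X → ℝ, (∀ i, MeasureTheory.MemLp (f i) ⊤ μ) →
          Filter.Tendsto
            (fun N : ℕ => ∫ x, ((1 / (N : ℝ)) * ∑ n ∈ Finset.Icc 1 N,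
                ∏ i, f i ((⇑T)^[⌊(n : ℝ) ^ (c i)⌋₊ ^ 2] x)
                - ∏ i, ∫ y, f i y ∂μ) ^ 2 ∂μ)
            Filter.atTop (𝓝 0) := by
  intro k c h1 h2 h3 X _ μ _ T hT htot f hf
  have hok : Ok c := ⟨h1, fun i => ⟨h2 i, h3 i⟩⟩
  let S := sysOf μ T hT
  have htot' : ∀ n : ℕ, 1 ≤ n → Ergodic (S.T n) S.μ := by
    intro n hn
    rw [sysOf_nat]
    exact htot n hn
  have hE : Erg S := erg_of he S (by simpa using htot' 1 le_rfl)
  choose M g hM hg hg1 hfg using fun i => rep μ (hf i)
  have hB : ∀ i, B1 (fun x => (g i x : ℂ)) := fun i =>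
    ⟨Complex.measurable_ofReal.comp (hg i), fun x => by
      rw [Complex.norm_real, Real.norm_eq_abs]; exact hg1 i x⟩
  have main := (complex_case hc c hok S hE htot' (fun i x => (g i x : ℂ)) hB).const_mul
    ((∏ i, M i) ^ 2)
  rw [mul_zero] at main
  refine main.congr fun N => ?_
  rw [← integral_const_mul]
  have hae : ∀ᵐ x ∂μ, ∀ (i : Fin k) (m : ℕ), f i ((⇑T)^[m] x) = M i * g i ((⇑T)^[m] x) := by
    rw [ae_all_iff]
    intro i
    rw [ae_all_iff]
    intro m
    exact (hT.iterate m).quasiMeasurePreserving.ae_eq_comp (hfg i)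
  refine integral_congr_ae ?_
  filter_upwards [hae] with x hx
  have e1 : ∀ i, ∫ y, f i y ∂μ = M i * ∫ y, g i y ∂μ := by
    intro i
    rw [integral_congr_ae (hfg i), integral_const_mul]
  have e2 : Av S c 1 (fun i x => (g i x : ℂ)) N x - ∏ i, ∫ y, (g i y : ℂ) ∂S.μ =
      (((1 / (N : ℝ)) * ∑ n ∈ Finset.Icc 1 N, ∏ i, g i ((⇑T)^[⌊(n : ℝ) ^ (c i)⌋₊ ^ 2] x)
        - ∏ i, ∫ y, g i y ∂μ : ℝ) : ℂ) := by
    rw [av_eq]
    simp only [S, sysOf_nat, integral_complex_ofReal]
    push_cast
    rw [div_eq_inv_mul, one_div]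
    rfl
  simp only [hx, e1, Finset.prod_mul_distrib]
  rw [e2, Complex.norm_real, Real.norm_eq_abs, sq_abs, ← Finset.mul_sum]
  ring

end Pool.Agent.H268Z.JE
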