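import Mathlib

/-!
Partitions of infinite groups into many subsets which are large on both sides.
-/

set_option autoImplicit false

namespace Pool.Agent.H268Z.Large

open Set
open Cardinal hiding univ
open scoped Pointwise

universe u v

/-- distinct representatives for a countable family of infinite sets -/
lemma sdr_countable {X : Type u} {ι : Type v} [Countable ι] (S : ι → Set X)
    (hS : ∀ d, (S d).Infinite) : ∃ p : ι → X, Function.Injective p ∧ ∀ d, p d ∈ S d := by
  classical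
  have := Encodable.ofCountable ι
  choose t ht1 ht2 using fun d => (hS d).exists_subset_card_eq (Encodable.encode d + 1)
  obtain ⟨p, hp1, hp2⟩ := (Finset.all_card_le_biUnion_card_iff_exists_injective t).1 (by
    intro s
    rcases s.eq_empty_or_nonempty with rfl | hne
    · simp
    obtain ⟨d, hd, hmax⟩ := Finset.exists_max_image s Encodable.encode hne
    calc s.card ≤ (Finset.range (Encodable.encode d + 1)).card :=
          Finset.card_le_card_of_injOn Encodable.encode
            (fun x hx => by simpa using Nat.lt_succ_of_le (hmax x hx))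
            Encodable.encode_injective.injOn
      _ = (t d).card := by rw [Finset.card_range, ht2]
      _ ≤ _ := Finset.card_le_card (Finset.subset_biUnion_of_mem t hd))
  exact ⟨p, hp1, fun d => ht1 d (hp2 d)⟩

lemma sdr {X : Type u} {ι Q : Type v} (S : ι → Set X) (hS : ∀ d, (S d).Infinite) (cls : ι → Q)
    (hc : ∀ q, {d | cls d = q}.Countable)
    (hd : ∀ d d' x, x ∈ S d → x ∈ S d' → cls d = cls d') :
    ∃ p : ι → X, Function.Injective p ∧ ∀ d, p d ∈ S d := by
  have : ∀ q, ∃ p : {d | cls d = q} → X, Function.Injective p ∧ ∀ d, p d ∈ S d.1 := by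
    intro q
    have := (hc q).to_subtype
    exact sdr_countable (fun d : {d | cls d = q} => S d) fun d => hS d
  choose p hp1 hp2 using this
  refine ⟨fun d => p (cls d) ⟨d, rfl⟩, fun d d' h => ?_, fun d => hp2 _ ⟨d, rfl⟩⟩
  have h1 : cls d = cls d' := hd d d' _ (hp2 _ ⟨d, rfl⟩) (by
    have := hp2 _ ⟨d', rfl⟩
    simp only at h
    rw [h]
    exact this)
  have h2 : ∀ q (hq : cls d' = q), p (cls d') ⟨d', rfl⟩ = p q ⟨d', hq⟩ := by
    rintro q rfl
    rfl
  simp only at h
  rw [h2 _ h1.symm] at h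
  exact congrArg Subtype.val (hp1 _ h)

variable {G : Type u} [Group G]

lemma mk_closure_le (s : Set G) : #(Subgroup.closure s) ≤ max #s ℵ₀ := by
  rw [FreeGroup.closure_eq_range]
  refine (mk_range_le (f := FreeGroup.lift (Subtype.val : s → G))).trans ?_
  rcases isEmpty_or_nonempty s with h0 | h0
  · exact (mk_le_aleph0 (α := FreeGroup s)).trans (le_max_right _ _)
  · exact (mk_freeGroup s).le

/-- a point-finite family of large sets indexed by a generating set -/
lemma exists_pointFinite (G : Type u) [Group G] : ∃ (I : Set G) (B : G → Set G),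
    Subgroup.closure I = ⊤ ∧ (∀ a ∈ I, ∀ x, x ∈ B a ∨ a * x ∈ B a) ∧
      ∀ x, {a | x ∈ B a}.Finite := by
  obtain ⟨lo, wf⟩ := exists_wellFoundedLT G
  let H : G → Subgroup G := fun a => Subgroup.closure {b | b < a}
  let H' : G → Subgroup G := fun a => Subgroup.closure {b | b ≤ a}
  let m : Subgroup G → G → G := fun K x =>
    wellFounded_lt.min {y | y * x⁻¹ ∈ K} ⟨x, by simp⟩
  have hm1 : ∀ K x, m K x * x⁻¹ ∈ K := fun K x => wellFounded_lt.min_mem {y | y * x⁻¹ ∈ K} _
  have hm2 : ∀ (K : Subgroup G) x y, y * x⁻¹ ∈ K → m K x ≤ y := fun K x y hy =>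
    not_lt.1 (wellFounded_lt.not_lt_min {y | y * x⁻¹ ∈ K} hy)
  have hanti : ∀ (K K' : Subgroup G) x, K ≤ K' → m K' x ≤ m K x := fun K K' x h =>
    hm2 _ _ _ (h (hm1 K x))
  have hHH' : ∀ a, H a ≤ H' a := fun a => Subgroup.closure_mono fun b hb => le_of_lt hb
  have hH'H : ∀ a a', a < a' → H' a ≤ H a' := fun a a' h =>
    Subgroup.closure_mono fun b hb => lt_of_le_of_lt hb h
  refine ⟨{a | a ∉ H a}, fun a => {x | m (H' a) x < m (H a) x}, ?_, ?_, ?_⟩
  · rw [eq_top_iff]
    intro x hx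
    clear hx
    induction x using WellFoundedLT.induction with
    | ind x ih =>
      by_cases h : x ∈ H x
      · exact (Subgroup.closure_le _).2 (fun b hb => ih b hb) h
      · exact Subgroup.subset_closure h
  · intro a ha x
    by_contra hc
    push Not at hc
    have h1 : m (H' a) x = m (H a) x := le_antisymm (hanti _ _ _ (hHH' a)) (not_lt.1 hc.1)
    have h2 : m (H' a) (a * x) = m (H a) (a * x) :=
      le_antisymm (hanti _ _ _ (hHH' a)) (not_lt.1 hc.2)
    have haH : a ∈ H' a := Subgroup.subset_closure (le_refl a)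
    have h3 : m (H' a) x = m (H' a) (a * x) := by
      apply le_antisymm
      · apply hm2
        have := (H' a).mul_mem (hm1 (H' a) (a * x)) haH
        simpa [mul_assoc] using this
      · apply hm2
        have := (H' a).mul_mem (hm1 (H' a) x) ((H' a).inv_mem haH)
        simpa [mul_assoc] using this
    apply ha
    have h4 := hm1 (H a) x
    have h5 := hm1 (H a) (a * x)
    rw [← h2, ← h3, h1] at h5
    have := (H a).mul_mem ((H a).inv_mem h5) h4
    simpa [mul_assoc] using this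
  · intro x
    have hgt : WellFoundedGT {a | m (H' a) x < m (H a) x} := by
      have hs : StrictAnti fun a : {a | m (H' a) x < m (H a) x} => m (H a) x := by
        intro a a' h
        exact lt_of_le_of_lt (hanti _ _ _ (hH'H _ _ h)) a.2
      exact hs.wellFoundedGT
    show {a | m (H' a) x < m (H a) x}.Finite
    exact Set.finite_coe_iff.1 (Finite.of_wellFoundedLT_wellFoundedGT _)

lemma exists_countable_subgroup (G : Type u) [Group G] [Infinite G] :
    ∃ K : Subgroup G, (K : Set G).Countable ∧ (K : Set G).Infinite := by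
  refine ⟨Subgroup.closure (range (Infinite.natEmbedding G)), ?_, ?_⟩
  · rw [← le_aleph0_iff_set_countable]
    refine (mk_closure_le _).trans (max_le ?_ le_rfl)
    rw [le_aleph0_iff_set_countable]
    exact countable_range _
  · exact (infinite_range_of_injective (Infinite.natEmbedding G).injective).mono
      Subgroup.subset_closure

/-- many disjoint sets which are large on both sides, with countable witnesses -/
theorem core1 (G : Type u) [Group G] [Infinite G] : ∃ (I : Set G) (A : G → Set G),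
    Subgroup.closure I = ⊤ ∧ Pairwise (fun a b => Disjoint (A a) (A b)) ∧
      ∀ a ∈ I, (∃ F : Set G, F.Countable ∧ F * A a = univ) ∧
        ∃ F : Set G, F.Countable ∧ A a * F = univ := by
  obtain ⟨I, B, hI, hB, hfin⟩ := exists_pointFinite G
  obtain ⟨K, hKc, hKi⟩ := exists_countable_subgroup G
  let ι := {d : Bool × G × G // (if d.1 then d.2.1 else d.2.1⁻¹) ∈ B d.2.2}
  let S : ι → Set G := fun d =>
    if d.1.1 then (fun k => k * d.1.2.1) '' K else (fun k => d.1.2.1 * k) '' K
  let D : G → Set G := fun x => (K : Set G) * {x} * (K : Set G)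
  have hDself : ∀ x, x ∈ D x := fun x =>
    ⟨1 * x, ⟨1, K.one_mem, x, rfl, rfl⟩, 1, K.one_mem, by simp⟩
  have hDc : ∀ x, (D x).Countable := fun x => ((hKc.image2 (countable_singleton x) _).image2 hKc _)
  have hDl : ∀ k ∈ K, ∀ x, D (k * x) = D x := by
    have h : ∀ k ∈ K, ∀ x, D (k * x) ⊆ D x := by
      rintro k hk x _ ⟨_, ⟨k1, hk1, _, rfl, rfl⟩, k2, hk2, rfl⟩
      exact ⟨(k1 * k) * x, ⟨_, K.mul_mem hk1 hk, x, rfl, rfl⟩, k2, hk2, by simp [mul_assoc]⟩
    intro k hk x
    refine (h k hk x).antisymm ?_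
    simpa using h k⁻¹ (K.inv_mem hk) (k * x)
  have hDr : ∀ k ∈ K, ∀ x, D (x * k) = D x := by
    have h : ∀ k ∈ K, ∀ x, D (x * k) ⊆ D x := by
      rintro k hk x _ ⟨_, ⟨k1, hk1, _, rfl, rfl⟩, k2, hk2, rfl⟩
      exact ⟨k1 * x, ⟨_, hk1, x, rfl, rfl⟩, k * k2, K.mul_mem hk hk2, by simp [mul_assoc]⟩
    intro k hk x
    refine (h k hk x).antisymm ?_
    simpa using h k⁻¹ (K.inv_mem hk) (x * k)
  have hSD : ∀ (d : ι) y, y ∈ S d → D y = D d.1.2.1 := by
    intro d y hy
    simp only [S] at hy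
    split_ifs at hy
    · obtain ⟨k, hk, rfl⟩ := hy
      exact hDl k hk _
    · obtain ⟨k, hk, rfl⟩ := hy
      exact hDr k hk _
  obtain ⟨p, hp1, hp2⟩ := sdr S
    (by
      intro d
      simp only [S]
      split_ifs
      · exact hKi.image (mul_left_injective _).injOn
      · exact hKi.image (mul_right_injective _).injOn)
    (fun d => D d.1.2.1)
    (by
      intro q
      rcases eq_empty_or_nonempty {d : ι | D d.1.2.1 = q} with h | ⟨d0, rfl⟩
      · rw [h]; exact countable_empty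
      have h1 : (⋃ x ∈ D d0.1.2.1, (univ : Set Bool) ×ˢ (({x} : Set G) ×ˢ
          ({a | x ∈ B a} ∪ {a | x⁻¹ ∈ B a}))).Countable :=
        (hDc _).biUnion fun x _ => countable_univ.prod ((countable_singleton x).prod
          ((hfin x).union (hfin x⁻¹)).countable)
      refine (h1.preimage (Subtype.val_injective (p := _))).mono ?_
      rintro ⟨⟨b, x, a⟩, hd⟩ h2
      simp only [mem_preimage, mem_iUnion]
      refine ⟨x, ?_, mem_univ _, rfl, ?_⟩
      · have h3 : D x = D d0.1.2.1 := h2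
        rw [← h3]
        exact hDself x
      · cases b
        · exact Or.inr hd
        · exact Or.inl hd)
    (fun d d' x h h' => (hSD d x h).symm.trans (hSD d' x h'))
  refine ⟨I, fun a => p '' {d | d.1.2.2 = a}, hI, ?_, fun a ha => ⟨?_, ?_⟩⟩
  · intro a b hab
    rw [Set.disjoint_left]
    rintro _ ⟨d, hd, rfl⟩ ⟨d', hd', h⟩
    rw [hp1 h] at hd'
    exact hab (hd.symm.trans hd')
  · refine ⟨{1, a⁻¹} * (K : Set G), (toFinite _).countable.image2 hKc _, eq_univ_of_forall fun x => ?_⟩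
    have key : ∀ y ∈ B a, ∃ k ∈ K, ∃ z ∈ p '' {d | d.1.2.2 = a}, k * z = y := by
      intro y hy
      obtain ⟨k, hk, h⟩ := hp2 ⟨(true, y, a), hy⟩
      refine ⟨k⁻¹, K.inv_mem hk, _, ⟨⟨(true, y, a), hy⟩, rfl, rfl⟩, ?_⟩
      rw [← h]
      simp
    rcases hB a ha x with h | h
    · obtain ⟨k, hk, z, hz, h⟩ := key _ h
      exact ⟨1 * k, ⟨1, by simp, k, hk, rfl⟩, z, hz, by simpa using h⟩
    · obtain ⟨k, hk, z, hz, h⟩ := key _ h
      exact ⟨a⁻¹ * k, ⟨a⁻¹, by simp, k, hk, rfl⟩, z, hz, by simp [mul_assoc, h]⟩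
  · refine ⟨(K : Set G) * {1, a}, hKc.image2 (toFinite _).countable _, eq_univ_of_forall fun x => ?_⟩
    have key : ∀ y, y⁻¹ ∈ B a → ∃ k ∈ K, ∃ z ∈ p '' {d | d.1.2.2 = a}, z * k = y := by
      intro y hy
      obtain ⟨k, hk, h⟩ := hp2 ⟨(false, y, a), hy⟩
      refine ⟨k⁻¹, K.inv_mem hk, _, ⟨⟨(false, y, a), hy⟩, rfl, rfl⟩, ?_⟩
      rw [← h]
      simp
    rcases hB a ha x⁻¹ with h | h
    · obtain ⟨k, hk, z, hz, h⟩ := key _ h
      exact ⟨z, hz, k * 1, ⟨k, hk, 1, by simp, rfl⟩, by simpa using h⟩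
    · obtain ⟨k, hk, z, hz, h⟩ := key (x * a⁻¹) (by simpa using h)
      exact ⟨z, hz, k * a, ⟨k, hk, a, by simp, rfl⟩, by simp [← mul_assoc, h]⟩

/-- a maximal family of pairwise disjoint right translates -/
lemma exists_packing (T : Finset G) (hT : T.Nonempty) : ∃ M : Set G,
    (∀ g ∈ M, ∀ g' ∈ M, ∀ t ∈ T, ∀ t' ∈ T, t * g = t' * g' → g = g') ∧
      ∀ h, ∃ g ∈ M, ∃ t ∈ T, ∃ t' ∈ T, t * g = t' * h := by
  obtain ⟨M, hM⟩ := zorn_subset
    {M : Set G | ∀ g ∈ M, ∀ g' ∈ M, ∀ t ∈ T, ∀ t' ∈ T, t * g = t' * g' → g = g'} (by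
      intro c hc hchain
      refine ⟨⋃₀ c, ?_, fun s hs => subset_sUnion_of_mem hs⟩
      rintro g ⟨s, hs, hg⟩ g' ⟨s', hs', hg'⟩
      rcases hchain.total hs hs' with h | h
      · exact hc hs' g (h hg) g' hg'
      · exact hc hs g hg g' (h hg'))
  refine ⟨M, hM.prop, fun h => ?_⟩
  by_contra hc
  push Not at hc
  have h1 : insert h M ⊆ M := hM.le_of_ge (by
    rintro g (rfl | hg) g' (rfl | hg') t ht t' ht' he
    · rfl
    · exact absurd he.symm (hc g' hg' t' ht' t ht)
    · exact absurd he (hc g hg t ht t' ht')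
    · exact hM.prop g hg g' hg' t ht t' ht' he) (subset_insert _ _)
  obtain ⟨t, ht⟩ := hT
  exact hc h (h1 (mem_insert _ _)) t ht t ht rfl

/-- countably many disjoint sets which are large on both sides, with finite witnesses -/
theorem core2 (G : Type u) [Group G] [Infinite G] : ∃ A : ℕ → Set G,
    Pairwise (fun a b => Disjoint (A a) (A b)) ∧
      ∀ n, (∃ F : Set G, F.Finite ∧ F * A n = univ) ∧ ∃ F : Set G, F.Finite ∧ A n * F = univ := by
  classical
  choose T hT using fun n : ℕ => Infinite.exists_subset_card_eq G (2 ^ (n + 2))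
  have hTne : ∀ n, (T n).Nonempty := fun n => Finset.card_pos.1 (by rw [hT]; positivity)
  choose M hM1 hM2 using fun n => exists_packing (T n) (hTne n)
  let ι := {d : (ℕ × Bool) × G // d.2 ∈ M d.1.1}
  let t : ι → Finset G := fun d =>
    (T d.1.1.1).image fun s => if d.1.1.2 then s * d.1.2 else (s * d.1.2)⁻¹
  have htc : ∀ d, (t d).card = 2 ^ (d.1.1.1 + 2) := by
    intro d
    rw [Finset.card_image_of_injective, hT]
    intro s s' h
    simp only at h
    split_ifs at h
    · exact mul_right_cancel h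
    · exact mul_right_cancel (inv_injective h)
  obtain ⟨p, hp1, hp2⟩ := (Finset.all_card_le_biUnion_card_iff_exists_injective t).1 (by
    intro s
    set U := (s.biUnion t).card with hU
    have h1 : ∀ q : ℕ × Bool, (s.filter fun d => d.1.1 = q).card * 2 ^ (q.1 + 2) ≤ U := by
      intro q
      have h2 : ((s.filter fun d => d.1.1 = q).biUnion t).card =
          ∑ d ∈ s.filter fun d => d.1.1 = q, (t d).card := by
        apply Finset.card_biUnion
        rintro ⟨⟨q1, g⟩, hg⟩ hd ⟨⟨q2, g'⟩, hg'⟩ hd' hne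
        obtain rfl : q1 = q := (Finset.mem_filter.1 hd).2
        obtain rfl : q2 = q1 := (Finset.mem_filter.1 hd').2
        rw [Function.onFun, Finset.disjoint_left]
        intro x hx hx'
        obtain ⟨a, ha, rfl⟩ := Finset.mem_image.1 hx
        obtain ⟨a', ha', h⟩ := Finset.mem_image.1 hx'
        apply hne
        have h3 : a' * g' = a * g := by
          simp only at h
          split_ifs at h
          · exact h
          · exact inv_injective h
        have := hM1 _ g' hg' g hg a' ha' a ha h3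
        subst this
        rfl
      calc _ = ∑ d ∈ s.filter fun d => d.1.1 = q, (t d).card := by
            rw [Finset.sum_congr rfl (g := fun _ => 2 ^ (q.1 + 2)), Finset.sum_const, smul_eq_mul]
            intro d hd
            rw [htc, (Finset.mem_filter.1 hd).2]
        _ ≤ U := by
            rw [← h2]
            exact Finset.card_le_card
              (Finset.biUnion_subset_biUnion_of_subset_left _ (Finset.filter_subset _ _))
    obtain ⟨N, hN⟩ : ∃ N, ∀ d ∈ s, d.1.1.1 < N :=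
      ⟨s.sup (fun d => d.1.1.1) + 1, fun d hd =>
        Nat.lt_succ_of_le (Finset.le_sup (f := fun d : ι => d.1.1.1) hd)⟩
    have h4 : s.card = ∑ q ∈ Finset.range N ×ˢ (Finset.univ : Finset Bool),
        (s.filter fun d => d.1.1 = q).card :=
      Finset.card_eq_sum_card_fiberwise fun d hd => by simpa using hN d hd
    have h5 : (s.card : ℝ) ≤ U := by
      rw [h4, Nat.cast_sum, Finset.sum_product]
      calc _ ≤ ∑ n ∈ Finset.range N, (U : ℝ) / 2 * (1 / 2) ^ n := by
            refine Finset.sum_le_sum fun n _ => ?_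
            have h6 : ∀ b : Bool, ((s.filter fun d => d.1.1 = (n, b)).card : ℝ) ≤
                (U : ℝ) / 4 * (1 / 2) ^ n := by
              intro b
              have h7 : ((s.filter fun d => d.1.1 = (n, b)).card : ℝ) * 2 ^ (n + 2) ≤ U := by
                exact_mod_cast h1 (n, b)
              have h8 : (U : ℝ) / 4 * (1 / 2) ^ n = U / 2 ^ (n + 2) := by
                rw [one_div_pow, pow_add]
                field_simp
                norm_num
              rw [h8, le_div_iff₀ (by positivity)]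
              exact h7
            rw [Fintype.sum_bool]
            linarith [h6 true, h6 false]
        _ ≤ U := by
            rw [← Finset.mul_sum]
            have := sum_geometric_two_le N
            have h9 : (0 : ℝ) ≤ (U : ℝ) / 2 := by positivity
            nlinarith
    exact_mod_cast h5)
  refine ⟨fun n => p '' {d | d.1.1.1 = n}, ?_, fun n => ⟨?_, ?_⟩⟩
  · intro a b hab
    rw [Set.disjoint_left]
    rintro _ ⟨d, hd, rfl⟩ ⟨d', hd', h⟩
    rw [hp1 h] at hd'
    exact hab (hd.symm.trans hd')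
  · refine ⟨(T n : Set G)⁻¹ * (T n : Set G) * (T n : Set G)⁻¹,
      ((T n).finite_toSet.inv.mul (T n).finite_toSet).mul (T n).finite_toSet.inv,
      eq_univ_of_forall fun x => ?_⟩
    obtain ⟨g, hg, a, ha, a', ha', h⟩ := hM2 n x
    obtain ⟨b, hb, h2⟩ := Finset.mem_image.1 (hp2 ⟨((n, true), g), hg⟩)
    refine ⟨a'⁻¹ * a * b⁻¹, ⟨_, ⟨a'⁻¹, by simpa using ha', a, ha, rfl⟩, b⁻¹, by simpa using hb, rfl⟩,
      _, ⟨⟨((n, true), g), hg⟩, rfl, rfl⟩, ?_⟩
    rw [← h2]
    simp [mul_assoc, h]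
  · refine ⟨(T n : Set G) * (T n : Set G)⁻¹ * (T n : Set G),
      ((T n).finite_toSet.mul (T n).finite_toSet.inv).mul (T n).finite_toSet,
      eq_univ_of_forall fun x => ?_⟩
    obtain ⟨g, hg, a, ha, a', ha', h⟩ := hM2 n x⁻¹
    obtain ⟨b, hb, h2⟩ := Finset.mem_image.1 (hp2 ⟨((n, false), g), hg⟩)
    refine ⟨_, ⟨⟨((n, false), g), hg⟩, rfl, rfl⟩, b * a⁻¹ * a',
      ⟨_, ⟨b, hb, a⁻¹, by simpa using ha, rfl⟩, a', ha', rfl⟩, ?_⟩
    rw [← h2]
    have h3 : g = a⁻¹ * a' * x⁻¹ := by rw [mul_assoc, ← h]; simp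
    simp [mul_assoc, h3]

/-- from a disjoint family to a partition -/
lemma partition_of_family {X : Type u} {ι : Type v} [Nonempty ι] (A : ι → Set X)
    (hA : Pairwise fun a b => Disjoint (A a) (A b)) (hne : ∀ i, (A i).Nonempty) :
    ∃ P : Set (Set X), Setoid.IsPartition P ∧ lift.{v} #P = lift.{u} #ι ∧
      ∀ C ∈ P, ∃ i, A i ⊆ C := by
  classical
  let c : X → ι := fun x => if h : ∃ i, x ∈ A i then h.choose else Classical.arbitrary ι
  have hc : ∀ i, A i ⊆ c ⁻¹' {i} := by
    intro i x hx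
    have h : ∃ i, x ∈ A i := ⟨i, hx⟩
    show c x = i
    simp only [c, dif_pos h]
    by_contra hne'
    exact Set.disjoint_left.1 (hA hne') h.choose_spec hx
  refine ⟨range fun i => c ⁻¹' {i}, ⟨?_, fun x => ?_⟩, ?_, ?_⟩
  · rintro ⟨i, hi⟩
    obtain ⟨x, hx⟩ := hne i
    have := hc i hx
    simp only at hi
    rw [hi] at this
    exact this
  · refine ⟨c ⁻¹' {c x}, ⟨⟨_, rfl⟩, rfl⟩, ?_⟩
    rintro _ ⟨⟨i, rfl⟩, hi⟩
    have : c x = i := hi
    rw [this]
  · apply mk_range_eq_of_injective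
    intro i j hij
    obtain ⟨x, hx⟩ := hne i
    have h1 := hc i hx
    have h2 : x ∈ c ⁻¹' {j} := by
      simp only at hij
      rw [← hij]
      exact h1
    exact (show c x = i from h1).symm.trans h2
  · rintro _ ⟨i, rfl⟩
    exact ⟨i, hc i⟩

lemma large_mono {A C : Set G} (h : A ⊆ C) {p : Set G → Prop}
    (hA : (∃ F : Set G, p F ∧ F * A = univ) ∧ ∃ F : Set G, p F ∧ A * F = univ) :
    (∃ F : Set G, p F ∧ F * C = univ) ∧ ∃ F : Set G, p F ∧ C * F = univ := by
  obtain ⟨⟨F, hF, h1⟩, F', hF', h2⟩ := hA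
  exact ⟨⟨F, hF, eq_univ_of_univ_subset (h1 ▸ mul_subset_mul_left h)⟩,
    F', hF', eq_univ_of_univ_subset (h2 ▸ mul_subset_mul_right h)⟩

lemma nonempty_of_large {A F : Set G} (h : F * A = univ) : A.Nonempty := by
  obtain ⟨_, -, a, ha, -⟩ : (1 : G) ∈ F * A := h ▸ mem_univ _
  exact ⟨a, ha⟩

theorem part_aleph0 (G : Type u) [Group G] [Infinite G] : ∃ P : Set (Set G),
    Setoid.IsPartition P ∧ #P = ℵ₀ ∧ ∀ A ∈ P,
      (∃ F : Set G, F.Finite ∧ F * A = univ) ∧ ∃ F : Set G, F.Finite ∧ A * F = univ := by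
  obtain ⟨A, hA, hl⟩ := core2 G
  obtain ⟨P, h1, h2, h3⟩ := partition_of_family A hA fun n =>
    nonempty_of_large (hl n).1.choose_spec.2
  refine ⟨P, h1, by simpa using h2, fun C hC => ?_⟩
  obtain ⟨n, hn⟩ := h3 C hC
  exact large_mono hn (hl n)

theorem part_countable (G : Type u) [Group G] [Infinite G] (κ : Cardinal.{u}) (h0 : ℵ₀ ≤ κ)
    (hκ : κ ≤ #G) : ∃ P : Set (Set G), Setoid.IsPartition P ∧ #P = κ ∧ ∀ A ∈ P,
      (∃ F : Set G, F.Countable ∧ F * A = univ) ∧ ∃ F : Set G, F.Countable ∧ A * F = univ := by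
  rcases h0.eq_or_lt with rfl | h0
  · obtain ⟨P, h1, h2, h3⟩ := part_aleph0 G
    refine ⟨P, h1, h2, fun A hA => ?_⟩
    obtain ⟨⟨F, hF, h4⟩, F', hF', h5⟩ := h3 A hA
    exact ⟨⟨F, hF.countable, h4⟩, F', hF'.countable, h5⟩
  obtain ⟨I, A, hI, hA, hl⟩ := core1 G
  have h1 : κ ≤ #I := by
    have h2 := mk_closure_le I
    rw [hI] at h2
    have h3 : #(⊤ : Subgroup G) = #G := mk_congr Subgroup.topEquiv.toEquiv
    rw [h3] at h2
    rcases le_max_iff.1 (hκ.trans h2) with h | h
    · exact h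
    · exact absurd h0 (not_lt.2 h)
  obtain ⟨J, hJI, hJ⟩ := le_mk_iff_exists_subset.1 h1
  have : Nonempty J := by
    rw [← mk_ne_zero_iff, hJ]
    exact (aleph0_pos.trans h0).ne'
  obtain ⟨P, h4, h5, h6⟩ := partition_of_family (fun a : J => A a)
    (fun a b hab => hA fun h => hab (Subtype.ext h))
    fun a => nonempty_of_large (hl a (hJI a.2)).1.choose_spec.2
  refine ⟨P, h4, by simpa [hJ] using h5, fun C hC => ?_⟩
  obtain ⟨a, ha⟩ := h6 C hC
  exact large_mono ha (hl a (hJI a.2))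

theorem part_kappa (G : Type u) [Group G] [Infinite G] (κ : Cardinal.{u}) (h0 : ℵ₀ ≤ κ)
    (hκ : κ ≤ #G) : ∃ P : Set (Set G), Setoid.IsPartition P ∧ #P = κ ∧ ∀ A ∈ P,
      (∃ F : Set G, #F < κ ∧ F * A = univ) ∧ ∃ F : Set G, #F < κ ∧ A * F = univ := by
  rcases h0.eq_or_lt with rfl | h1
  · obtain ⟨P, h1, h2, h3⟩ := part_aleph0 G
    refine ⟨P, h1, h2, fun A hA => ?_⟩
    obtain ⟨⟨F, hF, h4⟩, F', hF', h5⟩ := h3 A hA
    exact ⟨⟨F, lt_aleph0_iff_set_finite.2 hF, h4⟩, F', lt_aleph0_iff_set_finite.2 hF', h5⟩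
  · obtain ⟨P, h2, h3, h4⟩ := part_countable G κ h0 hκ
    refine ⟨P, h2, h3, fun A hA => ?_⟩
    obtain ⟨⟨F, hF, h5⟩, F', hF', h6⟩ := h4 A hA
    exact ⟨⟨F, (le_aleph0_iff_set_countable.2 hF).trans_lt h1, h5⟩,
      F', (le_aleph0_iff_set_countable.2 hF').trans_lt h1, h6⟩

end Pool.Agent.H268Z.Large
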