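import Pool.Agent.H653Z.HB.Defs

set_option autoImplicit false
open MeasureTheory Filter Topology

namespace Pool.Agent.H653Z.HB

namespace H268P

theorem sum_sym (f : ℤ → ℂ) (n : ℕ) :
    ∑ κ ∈ Finset.Icc (-(n : ℤ)) n, f κ = ∑ k ∈ Finset.range (n + 1), (f k + f (-(k : ℤ))) - f 0 := by
  induction n with
  | zero => simp
  | succ n ih =>
    have e : Finset.Icc (-((n + 1 : ℕ) : ℤ)) ((n + 1 : ℕ) : ℤ) =
        insert ((n + 1 : ℕ) : ℤ) (insert (-((n + 1 : ℕ) : ℤ)) (Finset.Icc (-(n : ℤ)) n)) := by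
      ext x
      simp only [Finset.mem_Icc, Finset.mem_insert]
      omega
    rw [e, Finset.sum_insert, Finset.sum_insert, ih, Finset.sum_range_succ _ (n + 1)]
    · ring
    · simp only [Finset.mem_Icc]; omega
    · simp only [Finset.mem_Icc, Finset.mem_insert]; omega

theorem fourier_neg_nat (k : ℕ) (z : T) : fourier (-(k : ℤ)) z = fourier (-1) z ^ k := by
  induction k with
  | zero => simp
  | succ k ih =>
    have : (-((k + 1 : ℕ) : ℤ)) = -(k : ℤ) + -1 := by push_cast; ring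
    rw [this, fourier_add, ih, pow_succ]

theorem norm_fourier (k : ℤ) (z : T) : ‖fourier k z‖ = 1 := by
  rw [fourier_apply, Circle.norm_coe]

theorem poisson (v : ℂ) (ρ : ℝ) (hρ : ρ < 1) (hv : ‖v‖ ≤ ρ) (m : ℕ) :
    -(2 * ρ ^ m / (1 - ρ)) ≤ 2 * (∑ k ∈ Finset.range m, v ^ k).re - 1 := by
  have h0 : 0 ≤ ρ := (norm_nonneg v).trans hv
  have h1 : 1 - ρ ≤ ‖1 - v‖ := by
    have := norm_sub_norm_le (1 : ℂ) v
    rw [norm_one] at this
    linarith
  have hp : 0 < 1 - ρ := by linarith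
  have hne : (1 - v) ≠ 0 := norm_pos_iff.1 (lt_of_lt_of_le hp h1)
  have e : ∑ k ∈ Finset.range m, v ^ k = (1 - v)⁻¹ - v ^ m / (1 - v) := by
    have := mul_neg_geom_sum v m
    field_simp
    linear_combination this
  have h2 : 1 ≤ 2 * ((1 - v)⁻¹).re := by
    have hs : 0 < Complex.normSq (1 - v) := Complex.normSq_pos.2 hne
    have hv1 : Complex.normSq v ≤ 1 := by
      rw [Complex.normSq_eq_norm_sq]
      have := norm_nonneg v
      nlinarith
    rw [Complex.inv_re, ← mul_div_assoc, le_div_iff₀ hs, Complex.normSq_apply]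
    rw [Complex.normSq_apply] at hv1
    simp only [Complex.sub_re, Complex.one_re, Complex.sub_im, Complex.one_im]
    nlinarith
  have h3 : (v ^ m / (1 - v)).re ≤ ρ ^ m / (1 - ρ) := by
    refine (Complex.re_le_norm _).trans ?_
    rw [norm_div, norm_pow]
    gcongr
  rw [e, Complex.sub_re, mul_div_assoc]
  linarith

theorem shift (p : C(T, ℂ)) (hp : p ∈ Submodule.span ℂ (Set.range (@fourier (1 : ℝ)))) :
    ∃ m : ℤ, ∀ m', m ≤ m' →
      fourier m' * p ∈ Submodule.span ℂ {f : C(T, ℂ) | ∃ κ : ℤ, 0 ≤ κ ∧ f = fourier κ} := by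
  induction hp using Submodule.span_induction with
  | mem x hx =>
    obtain ⟨k, rfl⟩ := hx
    refine ⟨-k, fun m' hm => Submodule.subset_span ⟨m' + k, by omega, ?_⟩⟩
    ext z
    rw [ContinuousMap.mul_apply, fourier_add]
  | zero => exact ⟨0, fun m' _ => by simp⟩
  | add x y _ _ hx hy =>
    obtain ⟨a, ha⟩ := hx
    obtain ⟨b, hb⟩ := hy
    refine ⟨max a b, fun m' hm => ?_⟩
    rw [mul_add]
    exact Submodule.add_mem _ (ha m' (le_trans (le_max_left _ _) hm))
      (hb m' (le_trans (le_max_right _ _) hm))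
  | smul c x _ hx =>
    obtain ⟨a, ha⟩ := hx
    refine ⟨a, fun m' hm => ?_⟩
    rw [mul_smul_comm]
    exact Submodule.smul_mem _ _ (ha m' hm)

theorem cint {E : Type*} [NormedAddCommGroup E] {f : T → E} (hf : Continuous f) :
    Integrable f haar :=
  hf.integrable_of_hasCompactSupport (HasCompactSupport.of_compactSpace f)

theorem one_peak (t : ℝ) (ht : 0 < t) (ht2 : t ≤ 1 / 2) : ∃ σ ψ : C(T, ℂ),
    (∀ z, ‖σ z‖ ≤ 1) ∧ (∀ z, σ z ≠ 0 → |‖z‖ - t| < t / 2) ∧
    ψ ∈ Submodule.span ℂ {f : C(T, ℂ) | ∃ κ : ℤ, 0 ≤ κ ∧ f = fourier κ} ∧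
    ∫ z, ‖ψ z‖ ∂haar ≤ 2 ∧ ∫ z, σ z * ψ z ∂haar = 1 := by
  let b : T → ℝ := fun z => max 0 (min 1 (2 - |‖z‖ - t| / (t / 4)))
  let f0 : T → ℝ := fun z => max 0 (t / 4 - |‖z‖ - t|)
  have hb : Continuous b := by fun_prop
  have hf0 : Continuous f0 := by fun_prop
  have hb0 : ∀ z, 0 ≤ b z := fun z => le_max_left _ _
  have hb1 : ∀ z, b z ≤ 1 := fun z => max_le zero_le_one (min_le_left _ _)
  have hf00 : ∀ z, 0 ≤ f0 z := fun z => le_max_left _ _
  have hbf : ∀ z, b z * f0 z = f0 z := by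
    intro z
    by_cases h : |‖z‖ - t| ≤ t / 4
    · have h1 : |‖z‖ - t| / (t / 4) ≤ 1 := by rw [div_le_one (by positivity)]; exact h
      have : b z = 1 := by
        simp only [b]
        rw [min_eq_left (by linarith), max_eq_right zero_le_one]
      rw [this, one_mul]
    · have : f0 z = 0 := by
        simp only [f0]
        exact max_eq_left (by linarith [not_le.1 h])
      rw [this, mul_zero]
  have hI : 0 < ∫ z, f0 z ∂haar := by
    refine integral_pos_of_integrable_nonneg_nonzero (x := ((t : ℝ) : T)) hf0 (cint hf0) hf00 ?_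
    have : ‖((t : ℝ) : T)‖ = |t| :=
      (AddCircle.norm_coe_eq_abs_iff (1 : ℝ) one_ne_zero).2 (by rw [abs_of_pos ht]; simpa using ht2)
    simp only [f0]
    rw [this, abs_of_pos ht, sub_self, abs_zero, sub_zero, max_eq_right (by positivity)]
    positivity
  set I := ∫ z, f0 z ∂haar with hId
  let f : C(T, ℂ) := ⟨fun z => ((f0 z / I : ℝ) : ℂ), by fun_prop⟩
  have hfm : f ∈ closure (Submodule.span ℂ (Set.range (@fourier (1 : ℝ))) : Set C(T, ℂ)) := by
    rw [← Submodule.topologicalClosure_coe, span_fourier_closure_eq_top]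
    trivial
  obtain ⟨p, hp, hd⟩ := Metric.mem_closure_iff.1 hfm (1 / 4) (by norm_num)
  have hpf : ∀ z, ‖p z - f z‖ ≤ 1 / 4 := by
    intro z
    have := ContinuousMap.dist_apply_le_dist (f := p) (g := f) z
    rw [dist_eq_norm, dist_comm] at this
    linarith
  have hfn : ∀ z, ‖f z‖ = f0 z / I := by
    intro z
    simp only [f, ContinuousMap.coe_mk, Complex.norm_real, Real.norm_eq_abs]
    exact abs_of_nonneg (div_nonneg (hf00 z) hI.le)
  have hint : ∫ z, f0 z / I ∂haar = 1 := by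
    rw [integral_div, ← hId, div_self hI.ne']
  have hp1 : ∫ z, ‖p z‖ ∂haar ≤ 5 / 4 := by
    have h1 : ∫ z, ‖p z‖ ∂haar ≤ ∫ z, (f0 z / I + 1 / 4) ∂haar := by
      refine integral_mono (cint (by fun_prop)) (cint (by fun_prop)) fun z => ?_
      have := norm_sub_norm_le (p z) (f z)
      have := hpf z
      have := hfn z
      simp only
      linarith
    rw [integral_add (cint (by fun_prop)) (cint (by fun_prop)), hint] at h1
    simp at h1
    linarith
  set lam : ℂ := ∫ z, (b z : ℂ) * p z ∂haar with hlam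
  have hbf1 : ∫ z, (b z : ℂ) * f z ∂haar = 1 := by
    have : ∀ z, (b z : ℂ) * f z = ((f0 z / I : ℝ) : ℂ) := by
      intro z
      simp only [f, ContinuousMap.coe_mk]
      rw [← Complex.ofReal_mul, ← mul_div_assoc, hbf]
    simp only [this]
    rw [integral_complex_ofReal, hint, Complex.ofReal_one]
  have hl1 : ‖lam - 1‖ ≤ 1 / 4 := by
    rw [hlam, ← hbf1, ← integral_sub (cint (by fun_prop)) (cint (by fun_prop))]
    have := norm_integral_le_of_norm_le_const (μ := haar)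
      (f := fun z => (b z : ℂ) * p z - (b z : ℂ) * f z) (C := 1 / 4) (Eventually.of_forall fun z => by
        rw [← mul_sub, norm_mul, Complex.norm_real, Real.norm_eq_abs, abs_of_nonneg (hb0 z)]
        have := hpf z
        have := hb1 z
        have := hb0 z
        have := norm_nonneg (p z - f z)
        nlinarith)
    simpa using this
  have hl2 : 3 / 4 ≤ ‖lam‖ := by
    have := norm_sub_norm_le (1 : ℂ) lam
    rw [norm_one, norm_sub_rev] at this
    linarith
  have hl0 : lam ≠ 0 := norm_pos_iff.1 (by linarith)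
  obtain ⟨m, hm⟩ := shift p hp
  refine ⟨⟨fun z => (b z : ℂ) * fourier (-m) z, by fun_prop⟩, lam⁻¹ • (fourier m * p), fun z => ?_,
    fun z hz => ?_, Submodule.smul_mem _ _ (hm m le_rfl), ?_, ?_⟩
  · simp only [ContinuousMap.coe_mk]
    rw [norm_mul, norm_fourier, mul_one, Complex.norm_real, Real.norm_eq_abs, abs_of_nonneg (hb0 z)]
    exact hb1 z
  · by_contra h
    apply hz
    have h1 : 2 ≤ |‖z‖ - t| / (t / 4) := by
      rw [le_div_iff₀ (by positivity)]
      linarith [not_lt.1 h]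
    have : b z = 0 := by
      simp only [b]
      exact max_eq_left ((min_le_right _ _).trans (by linarith))
    simp only [ContinuousMap.coe_mk]
    rw [this]
    simp
  · have : ∀ z, ‖(lam⁻¹ • (fourier m * p) : C(T, ℂ)) z‖ = ‖lam‖⁻¹ * ‖p z‖ := by
      intro z
      rw [ContinuousMap.smul_apply, ContinuousMap.mul_apply, norm_smul, norm_mul, norm_fourier,
        one_mul, norm_inv]
    simp only [this]
    rw [integral_const_mul]
    have h1 : ‖lam‖⁻¹ ≤ 4 / 3 := by
      rw [inv_le_comm₀ (by linarith) (by norm_num)]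
      linarith
    have h2 : 0 ≤ ∫ z, ‖p z‖ ∂haar := integral_nonneg fun z => norm_nonneg _
    nlinarith
  · have : ∀ z, (b z : ℂ) * fourier (-m) z * (lam⁻¹ • (fourier m * p) : C(T, ℂ)) z =
        lam⁻¹ * ((b z : ℂ) * p z) := by
      intro z
      have h1 : fourier (-m) z * fourier m z = 1 := by
        rw [← fourier_add, neg_add_cancel, fourier_zero]
      rw [ContinuousMap.smul_apply, ContinuousMap.mul_apply, smul_eq_mul]
      linear_combination (lam⁻¹ * ((b z : ℂ) * p z)) * h1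
    simp only [ContinuousMap.coe_mk, this]
    rw [integral_const_mul, ← hlam, inv_mul_cancel₀ hl0]

end H268P

open H268P in
theorem circle_peaks : ∃ σ ψ : ℕ → C(T, ℂ),
    (∀ (z : T) (s : Finset ℕ), ∑ i ∈ s, ‖σ i z‖ ≤ 1) ∧
    (∀ i, ψ i ∈ Submodule.span ℂ {f : C(T, ℂ) | ∃ κ : ℤ, 0 ≤ κ ∧ f = fourier κ}) ∧
    (∀ i, ∫ z, ‖ψ i z‖ ∂haar ≤ 2) ∧ ∀ i, ∫ z, σ i z * ψ i z ∂haar = 1 := by
  have ht : ∀ i : ℕ, (0 : ℝ) < (1 / 4) ^ i / 2 := fun i => by positivity
  have ht2 : ∀ i : ℕ, ((1 / 4) ^ i / 2 : ℝ) ≤ 1 / 2 := fun i => by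
    have : ((1 / 4) ^ i : ℝ) ≤ 1 := pow_le_one₀ (by norm_num) (by norm_num)
    linarith
  choose σ ψ h1 h2 h3 h4 h5 using fun i : ℕ => one_peak _ (ht i) (ht2 i)
  refine ⟨σ, ψ, fun z s => ?_, h3, h4, h5⟩
  have key : ∀ i j, i < j → σ i z ≠ 0 → σ j z ≠ 0 → False := by
    intro i j hij hi hj
    have a1 := abs_lt.1 (h2 i z hi)
    have a2 := abs_lt.1 (h2 j z hj)
    have a3 : ((1 / 4) ^ j : ℝ) ≤ (1 / 4) ^ (i + 1) :=
      pow_le_pow_of_le_one (by norm_num) (by norm_num) hij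
    rw [pow_succ] at a3
    have := ht i
    linarith [a1.1, a2.2]
  by_cases h : ∃ i ∈ s, σ i z ≠ 0
  · obtain ⟨i, hi, hz⟩ := h
    rw [Finset.sum_eq_single_of_mem i hi]
    · exact h1 i z
    · intro j _ hji
      rw [norm_eq_zero]
      by_contra hj
      rcases lt_or_gt_of_ne hji with h | h
      · exact key j i h hj hz
      · exact key i j h hz hj
  · rw [Finset.sum_eq_zero]
    · exact zero_le_one
    · intro i hi
      rw [norm_eq_zero]
      by_contra hz
      exact h ⟨i, hi, hz⟩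

open H268P in
theorem disc_kernel (L : ℕ) (τ : ℝ) (hτ : 0 < τ) : ∃ (n : ℕ) (θ : ℤ → ℝ), L ≤ n ∧
    (∀ k : ℤ, |k| ≤ L → θ k = 1) ∧ (∀ k, |θ k| ≤ 1) ∧ ∀ w : ℂ, ‖w‖ ≤ 1 → ∀ z : T,
      ‖∑ κ ∈ Finset.Icc (-(n : ℤ)) n, (θ κ : ℂ) * wpow w κ * fourier (-κ) z‖ ≤
        (∑ κ ∈ Finset.Icc (-(n : ℤ)) n, (θ κ : ℂ) * wpow w κ * fourier (-κ) z).re + τ := by
  set ε : ℝ := min (1 / 2) (τ / (8 * ((L : ℝ) + 1) ^ 2)) with hε
  have hε0 : 0 < ε := lt_min (by norm_num) (by positivity)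
  have hε1 : ε ≤ 1 / 2 := min_le_left _ _
  have hε2 : ε * (8 * ((L : ℝ) + 1) ^ 2) ≤ τ := by
    rw [← le_div_iff₀ (by positivity)]
    exact min_le_right _ _
  set ρ : ℝ := 1 - ε with hρ
  have hρ0 : 0 ≤ ρ := by linarith
  have hρ1 : ρ < 1 := by linarith
  obtain ⟨n0, hn0⟩ := exists_pow_lt_of_lt_one (show 0 < τ * ε / 8 by positivity) hρ1
  let θ : ℤ → ℝ := fun k => if |k| ≤ L then 1 else ρ ^ k.natAbs
  refine ⟨max L n0, θ, le_max_left _ _, fun k hk => if_pos hk, fun k => ?_, fun w hw z => ?_⟩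
  · simp only [θ]
    split_ifs
    · simp
    · rw [abs_of_nonneg (by positivity)]
      exact pow_le_one₀ hρ0 hρ1.le
  set n := max L n0 with hn
  set u : ℂ := w * fourier (-1) z with hu
  have hu1 : ‖u‖ ≤ 1 := by rw [hu, norm_mul, norm_fourier, mul_one]; exact hw
  have hpos : ∀ k : ℕ, wpow w k * fourier (-(k : ℤ)) z = u ^ k := by
    intro k
    rw [fourier_neg_nat, hu, mul_pow, wpow, if_pos (by omega), Int.toNat_natCast]
  have hneg : ∀ k : ℕ, wpow w (-(k : ℤ)) * fourier (-(-(k : ℤ))) z = starRingEnd ℂ (u ^ k) := by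
    intro k
    rw [← hpos, map_mul, fourier_neg (n := -(k : ℤ))]
    congr 1
    rcases Nat.eq_zero_or_pos k with rfl | hk
    · simp [wpow]
    · rw [wpow, wpow, if_neg (by omega), if_pos (by omega), neg_neg, map_pow]
  have hθ : ∀ k : ℕ, θ (-(k : ℤ)) = θ k := by
    intro k
    simp only [θ, abs_neg, Int.natAbs_neg]
  have hθ0 : θ 0 = 1 := if_pos (by simp)
  set R : ℝ := 2 * (∑ k ∈ Finset.range (n + 1), (θ k : ℂ) * u ^ k).re - 1 with hR
  have hS : ∑ κ ∈ Finset.Icc (-(n : ℤ)) n, (θ κ : ℂ) * wpow w κ * fourier (-κ) z = (R : ℂ) := by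
    rw [sum_sym (fun κ => (θ κ : ℂ) * wpow w κ * fourier (-κ) z) n]
    have h0 : (θ 0 : ℂ) * wpow w 0 * fourier (-0) z = 1 := by
      simp [hθ0, wpow]
    rw [h0, hR]
    push_cast
    congr 1
    rw [Complex.re_sum]
    push_cast
    rw [Finset.mul_sum]
    refine Finset.sum_congr rfl fun k _ => ?_
    rw [mul_assoc, mul_assoc, hpos, hneg, hθ, ← mul_add, Complex.add_conj, Complex.re_ofReal_mul]
    push_cast
    ring
  have hP := poisson ((ρ : ℂ) * u) ρ hρ1 (by
    rw [norm_mul, Complex.norm_real, Real.norm_eq_abs, abs_of_nonneg hρ0]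
    nlinarith [norm_nonneg u]) (n + 1)
  have hdiff : ‖∑ k ∈ Finset.range (n + 1), ((ρ : ℂ) * u) ^ k -
      ∑ k ∈ Finset.range (n + 1), (θ k : ℂ) * u ^ k‖ ≤ ((L : ℝ) + 1) * (L * ε) := by
    rw [← Finset.sum_sub_distrib]
    refine (norm_sum_le _ _).trans ?_
    have h1 : ∀ k ∈ Finset.range (n + 1), ‖((ρ : ℂ) * u) ^ k - (θ k : ℂ) * u ^ k‖ ≤
        if k ∈ Finset.range (L + 1) then L * ε else 0 := by
      intro k _
      have e : ((ρ : ℂ) * u) ^ k - (θ k : ℂ) * u ^ k = ((ρ ^ k - θ k : ℝ) : ℂ) * u ^ k := by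
        push_cast; ring
      rw [e, norm_mul, Complex.norm_real, Real.norm_eq_abs, norm_pow]
      have huk : ‖u‖ ^ k ≤ 1 := pow_le_one₀ (norm_nonneg _) hu1
      by_cases hk : k ≤ L
      · rw [if_pos (Finset.mem_range.2 (by omega))]
        have e1 : θ k = 1 := if_pos (by rw [abs_of_nonneg (by omega)]; exact_mod_cast hk)
        have b1 : 1 + (k : ℝ) * (ρ - 1) ≤ ρ ^ k := one_add_mul_sub_le_pow (by linarith) k
        have b2 : ρ ^ k ≤ 1 := pow_le_one₀ hρ0 hρ1.le
        have b3 : (k : ℝ) ≤ L := by exact_mod_cast hk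
        have b4 : |ρ ^ k - θ k| ≤ L * ε := by
          rw [e1, abs_of_nonpos (by linarith)]
          have : (k : ℝ) * ε ≤ L * ε := by gcongr
          have : (k : ℝ) * (ρ - 1) = -(k * ε) := by rw [hρ]; ring
          linarith
        calc |ρ ^ k - θ k| * ‖u‖ ^ k ≤ L * ε * 1 := by gcongr
          _ = L * ε := mul_one _
      · rw [if_neg (by rw [Finset.mem_range]; omega)]
        have e1 : θ k = ρ ^ k := by
          simp only [θ]
          rw [if_neg (by rw [abs_of_nonneg (by omega)]; omega), Int.natAbs_natCast]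
        rw [e1, sub_self, abs_zero, zero_mul]
    refine (Finset.sum_le_sum h1).trans ?_
    rw [Finset.sum_ite_mem, Finset.sum_const, nsmul_eq_mul]
    have : ((Finset.range (n + 1) ∩ Finset.range (L + 1)).card : ℝ) ≤ (L : ℝ) + 1 := by
      have := Finset.card_le_card (Finset.inter_subset_right (s₁ := Finset.range (n + 1))
        (s₂ := Finset.range (L + 1)))
      rw [Finset.card_range] at this
      exact_mod_cast this
    gcongr
  have hre := (Complex.re_le_norm _).trans hdiff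
  rw [Complex.sub_re] at hre
  have hρn : ρ ^ (n + 1) ≤ ρ ^ n0 :=
    pow_le_pow_of_le_one hρ0 hρ1.le (by have := le_max_right L n0; omega)
  have h1 : 2 * ρ ^ (n + 1) / (1 - ρ) ≤ τ / 4 := by
    have : 1 - ρ = ε := by rw [hρ]; ring
    rw [this, div_le_iff₀ hε0]
    linarith
  have h2 : ((L : ℝ) + 1) * (L * ε) ≤ τ / 8 := by
    have : (0 : ℝ) ≤ L := Nat.cast_nonneg L
    nlinarith
  have hRl : -(τ / 2) ≤ R := by
    rw [hR]
    linarith
  rw [hS, Complex.norm_real, Real.norm_eq_abs, Complex.ofReal_re, abs_le]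
  constructor <;> linarith

end Pool.Agent.H653Z.HB
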