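import Pool.Agent.H123Z.GSC.Defs2
import Pool.Agent.H161Z.Coords

set_option autoImplicit false
set_option linter.all false

namespace Pool.Agent.H123Z.GSC

open Finset PowerSeries

namespace H268R

variable {ι G : Type} [Fintype ι] [DecidableEq ι] [Group G] [Fintype G]

theorem coeff_ebar (g : G) : (ebar G).coeff g = (Fintype.card G : ℝ)⁻¹ := by
  classical
  simp [ebar, Finsupp.single_apply]

theorem mul_ebar (x : MonoidAlgebra ℝ G) : x * ebar G = (∑ g, x.coeff g) • ebar G := by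
  ext g
  rw [coeff_mul_sum]
  simp [coeff_ebar, Finset.sum_mul]

theorem sum_ebar : ∑ g : G, (ebar G).coeff g = 1 := by
  have : (Fintype.card G : ℝ) ≠ 0 := by exact_mod_cast Fintype.card_ne_zero
  simp [coeff_ebar, this]

theorem ebar_sq : ebar G * ebar G = ebar G := by rw [mul_ebar, sum_ebar, one_smul]

theorem col_iff (o : ι) (x : MA ι G) :
    (x * Matrix.single o o 1 = x ∧ Matrix.single o o 1 * x = 0) ↔
      ∀ i j, (j ≠ o ∨ i = o) → x i j = 0 := by
  constructor
  · rintro ⟨h1, h2⟩ i j (h | h)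
    · rw [← h1, Matrix.mul_single_apply_of_ne _ _ _ _ _ h]
    · subst h
      have := congrFun (congrFun h2 i) j
      rw [Matrix.single_mul_apply_same, one_mul] at this
      exact this
  · intro h
    constructor
    · ext1 i j
      by_cases hj : j = o
      · subst hj
        rw [Matrix.mul_single_apply_same, mul_one]
      · rw [Matrix.mul_single_apply_of_ne _ _ _ _ _ hj, h i j (Or.inl hj)]
    · ext1 i j
      by_cases hi : i = o
      · subst hi
        rw [Matrix.single_mul_apply_same, one_mul, h i j (Or.inr rfl)]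
        rfl
      · rw [Matrix.single_mul_apply_of_ne _ _ _ _ _ hi]
        rfl

theorem toR_mul_colV (o : ι) (B : MZ ι G) (lam : ℝ) (w : ι → ℝ)
    (hBw : (aug B).mulVec w = lam • w) : toR B * colV G o lam w = lam • colV G o lam w := by
  ext1 i j
  rw [Matrix.mul_apply, Matrix.smul_apply]
  by_cases hj : j = o
  · simp only [colV, hj, if_true]
    have h1 : ∀ l, toR B i l * ((lam * w l) • ebar G) = (lam * (aug B i l * w l)) • ebar G := by
      intro l
      rw [mul_smul_comm, mul_ebar, smul_smul]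
      congr 1
      simp only [aug, toR_coeff]
      ring
    rw [Finset.sum_congr rfl fun l _ => h1 l, ← Finset.sum_smul, ← Finset.mul_sum, smul_smul]
    congr 2
    have := congrFun hBw i
    simpa [Matrix.mulVec, dotProduct] using this
  · simp [colV, hj]

theorem colV_sq (o : ι) (lam : ℝ) (w : ι → ℝ) (hw : w o = 1) :
    colV G o lam w * colV G o lam w = lam • colV G o lam w := by
  ext1 i j
  rw [Matrix.mul_apply, Matrix.smul_apply, Finset.sum_eq_single o]
  · by_cases hj : j = o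
    · simp only [colV, hj, if_true, hw, mul_one]
      rw [smul_mul_assoc, mul_smul_comm, ebar_sq, smul_smul, smul_smul]
      congr 1
      ring
    · simp [colV, hj]
  · intro b _ hb
    simp [colV, hb]
  · intro h; exact absurd (Finset.mem_univ o) h

theorem colV_col (o : ι) (lam : ℝ) (w : ι → ℝ) (hw : w o = 1) (i j : ι) (h : j ≠ o ∨ i = o) :
    (colV G o lam w - Matrix.single o o (lam • ebar G) : MA ι G) i j = 0 := by
  rw [Matrix.sub_apply]
  by_cases hj : j = o
  · subst hj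
    have hi : i = j := by simpa using h
    subst hi
    simp [colV, hw]
  · rw [Matrix.single_apply_of_col_ne _ _ (Ne.symm hj)]
    simp [colV, hj]

/-- Coordinatewise fractional part. -/
noncomputable def fr (x : MA ι G) : MA ι G :=
  fun i j => ∑ g, MonoidAlgebra.single g (Int.fract ((x i j).coeff g))

theorem fr_coeff (x : MA ι G) (i j : ι) (g : G) :
    (fr x i j).coeff g = Int.fract ((x i j).coeff g) := by
  classical
  simp [fr, Finsupp.single_apply]

theorem fr_zero (x : MA ι G) (i j : ι) (h : x i j = 0) : fr x i j = 0 := by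
  ext g
  rw [fr_coeff, h]
  simp

theorem norm_fr (x : MA ι G) : ‖fr x‖ ≤ ∑ _i : ι, ∑ _j : ι, ∑ _g : G, (1 : ℝ) := by
  rw [norm_def']
  refine Finset.sum_le_sum fun i _ => Finset.sum_le_sum fun j _ => Finset.sum_le_sum fun g _ => ?_
  rw [fr_coeff, abs_of_nonneg (Int.fract_nonneg _)]
  exact (Int.fract_lt_one _).le

theorem sub_fr (x : MA ι G) : x - fr x ∈ ZZ ι G := by
  unfold ZZ
  rw [H161C.mem_range]
  intro i j g
  refine ⟨⌊(x i j).coeff g⌋, ?_⟩
  rw [Matrix.sub_apply, MonoidAlgebra.coeff_sub, Finsupp.sub_apply, fr_coeff, Int.self_sub_fract]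

/-- The recursive rounding sequence. -/
noncomputable def ys (d : ℕ → MA ι G) (e : MA ι G) : ℕ → MA ι G
  | 0 => fr (d 0)
  | k + 1 => fr (d (k + 1) + ys d e k * e)

theorem round (o : ι) (e : MA ι G) (he : e * Matrix.single o o 1 = e) (d : PowerSeries (MA ι G))
    (hd1 : d * C (Matrix.single o o 1) = d) (hd2 : C (Matrix.single o o 1) * d = 0) (hd0 : Van 1 d) :
    ∃ (y : PowerSeries (MA ι G)) (N : ℝ), y * C (Matrix.single o o 1) = y ∧
      C (Matrix.single o o 1) * y = 0 ∧ Van 1 y ∧ (∀ k, ‖coeff k y‖ ≤ N) ∧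
      d - y * (1 - X * C e) ∈ cfr (ZZ ι G) := by
  have hc : ∀ k, coeff k d * Matrix.single o o 1 = coeff k d ∧
      Matrix.single o o 1 * coeff k d = 0 := by
    intro k
    constructor
    · rw [← coeff_mul_C, hd1]
    · rw [← coeff_C_mul, hd2, map_zero]
  have hy : ∀ k, ys (fun k => coeff k d) e k * Matrix.single o o 1 = ys (fun k => coeff k d) e k ∧
      Matrix.single o o 1 * ys (fun k => coeff k d) e k = 0 := by
    intro k
    induction k with
    | zero =>
      rw [col_iff]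
      intro i j h
      exact fr_zero _ _ _ ((col_iff o _).1 (hc 0) i j h)
    | succ k ih =>
      rw [col_iff]
      intro i j h
      refine fr_zero _ _ _ ((col_iff o _).1 ⟨?_, ?_⟩ i j h)
      · rw [add_mul, (hc _).1, mul_assoc, he]
      · rw [mul_add, (hc _).2, ← mul_assoc, ih.2, zero_mul, add_zero]
  refine ⟨PowerSeries.mk (ys (fun k => coeff k d) e), ∑ _i : ι, ∑ _j : ι, ∑ _g : G, (1 : ℝ), ?_, ?_, ?_, fun k => ?_, ?_⟩
  · ext1 k
    rw [coeff_mul_C, coeff_mk, (hy k).1]
  · ext1 k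
    rw [coeff_C_mul, coeff_mk, (hy k).2, map_zero]
  · rw [van_one_iff, coeff_mk]
    ext1 i j
    refine fr_zero _ _ _ ?_
    simp only [van_one_iff.1 hd0]
    rfl
  · rw [coeff_mk]
    cases k <;> exact norm_fr _
  · intro k
    rw [mul_sub, mul_one, map_sub, map_sub, ← mul_assoc, coeff_mul_C, coeff_mk]
    cases k with
    | zero =>
      rw [coeff_zero_mul_X, zero_mul, sub_zero]
      exact sub_fr _
    | succ k =>
      rw [coeff_succ_mul_X, coeff_mk]
      have : coeff (k + 1) d - (ys (fun k => coeff k d) e (k + 1) - ys (fun k => coeff k d) e k * e)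
          = (coeff (k + 1) d + ys (fun k => coeff k d) e k * e) -
            fr (coeff (k + 1) d + ys (fun k => coeff k d) e k * e) := by
        simp only [ys]
        abel
      rw [this]
      exact sub_fr _

theorem lift_ps (f : PowerSeries (MA ι G)) (hf : f ∈ cfr (ZZ ι G)) :
    ∃ F : PowerSeries (MZ ι G), PowerSeries.map toR F = f := by
  have h : ∀ k, ∃ z : MZ ι G, toR z = coeff k f := fun k => hf k
  choose z hz using h
  refine ⟨PowerSeries.mk z, ?_⟩
  ext1 k
  rw [coeff_map, coeff_mk, hz]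

theorem lift_poly (f : PowerSeries (MA ι G)) (hf : f ∈ cfr (ZZ ι G)) (hN : FinS f) :
    ∃ F : Polynomial (MZ ι G), PowerSeries.map toR (F : PowerSeries (MZ ι G)) = f := by
  obtain ⟨F, hF⟩ := lift_ps f hf
  obtain ⟨N, hN⟩ := hN
  refine ⟨trunc N F, ?_⟩
  ext1 k
  rw [coeff_map, Polynomial.coeff_coe, coeff_trunc]
  split_ifs with h
  · rw [← hF, coeff_map]
  · rw [hN k (by omega), map_zero]

theorem sup_bound {𝔸 : Type} [NormedRing 𝔸] [NormedAlgebra ℝ 𝔸] {y c d : ℝ} (hy : 0 ≤ y)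
    {f g : PowerSeries 𝔸} (hf : Bd y f c) (hg : ∀ k, ‖coeff k g‖ * y ^ k ≤ d) (k : ℕ) :
    ‖coeff k (f * g)‖ * y ^ k ≤ c * d := by
  have hd : 0 ≤ d := le_trans (by positivity) (hg 0)
  calc ‖coeff k (f * g)‖ * y ^ k
      ≤ (∑ z ∈ antidiagonal k, ‖coeff z.1 f‖ * ‖coeff z.2 g‖) * y ^ k :=
        mul_le_mul_of_nonneg_right (norm_coeff_mul_le f g k) (by positivity)
    _ = ∑ z ∈ antidiagonal k, (‖coeff z.1 f‖ * y ^ z.1) * (‖coeff z.2 g‖ * y ^ z.2) := by
        rw [Finset.sum_mul]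
        refine Finset.sum_congr rfl fun z hz => ?_
        rw [Finset.HasAntidiagonal.mem_antidiagonal] at hz
        rw [← hz, pow_add]
        ring
    _ ≤ ∑ z ∈ antidiagonal k, (‖coeff z.1 f‖ * y ^ z.1) * d :=
        Finset.sum_le_sum fun z _ => mul_le_mul_of_nonneg_left (hg _) (by positivity)
    _ = (∑ i ∈ range (k + 1), ‖coeff i f‖ * y ^ i) * d := by
        rw [← Finset.sum_mul,
          Finset.Nat.sum_antidiagonal_eq_sum_range_succ (fun i _ => ‖coeff i f‖ * y ^ i)]
    _ ≤ c * d := mul_le_mul_of_nonneg_right (hf _) hd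

theorem coeff_zero_mul' {R : Type} [Ring R] (f g : PowerSeries R) :
    coeff 0 (f * g) = coeff 0 f * coeff 0 g := by
  simp [coeff_zero_eq_constantCoeff_apply]

/-- The purely algebraic factorisation. -/
theorem alg {R : Type} [Ring R] (P h a b y : R) (ha2 : P * a = 0)
    (hb1 : b * P = b) (hy1 : y * P = y) (hct : P * (a - b - y * h) = 0)
    (hh : h * (a - b - y * h) = a - b - y * h) :
    (h - b) * (1 + -(a - b - y * h)) = (1 + y) * (h - a) := by
  have e1 : b * (a - b - y * h) = 0 := by rw [← hb1, mul_assoc b P, hb1, hct, mul_zero]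
  have e2 : y * a = 0 := by rw [← hy1, mul_assoc, ha2, mul_zero]
  calc (h - b) * (1 + -(a - b - y * h))
      = h - b - h * (a - b - y * h) + b * (a - b - y * h) := by noncomm_ring
    _ = h - a + y * h := by rw [hh, e1]; abel
    _ = h - a + y * h - y * a := by rw [e2, sub_zero]
    _ = (1 + y) * (h - a) := by noncomm_ring

end H268R

open H268R in
theorem rounding {ι G : Type} [Fintype ι] [DecidableEq ι] [Group G] [Fintype G] (o o' : ι) (hoo : o ≠ o')
    (A B : MZ ι G) (lam ρ : ℝ) (hρ0 : 0 < ρ) (hρ1 : ρ < 1) (hU : ThmUC G o ρ) (hM : Model o A lam ρ)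
    (w : ι → ℝ) (hw : w o = 1) (hBw : (aug B).mulVec w = lam • w)
    (hsB : Summable fun k : ℕ => ‖(toR B - colV G o lam w) ^ k‖ * ρ ^ k)
    (htr : ∀ k, 0 < k → ctr G o (toR A ^ k) = ctr G o (toR B ^ k)) : Fact B := by
  obtain ⟨T, Tf, a, Q, y, c, CU, k2, hTZ, hTiZ, hT0, hTtau, hTfac, ha1, ha2, ha0, haB, hTfB, hTfiB,
    hQZ, hQfin, hQN, hQ0, hQpos, hy0, hyρ, hc, hCU, hFN, hFc⟩ := hM
  have hρ := hρ0.le
  set p : MA ι G := Matrix.single o o 1 with hp
  set e : MA ι G := Matrix.single o o (lam • ebar G) with he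
  set V : MA ι G := colV G o lam w with hV
  have hep : e * p = e := by rw [he, hp, Matrix.single_mul_single_same, mul_one]
  have hVe := (col_iff o (V - e)).2 (colV_col o lam w hw)
  rw [← hp] at hVe
  have hBV : (toR B - V) * V = 0 := by
    rw [sub_mul, hV, toR_mul_colV o B lam w hBw, colV_sq o lam w hw, sub_self]
  set h : PowerSeries (MA ι G) := 1 - X * C e with hh
  set b : PowerSeries (MA ι G) := X * C (V - e) with hb
  have hb1 : b * C p = b := by rw [hb, mul_assoc, ← map_mul, hVe.1]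
  have hb2 : C p * b = 0 := by
    rw [hb, ← mul_assoc, (commute_X (C p)).eq, mul_assoc, ← map_mul, hVe.2, map_zero, mul_zero]
  have hb0 : Van 1 b := van_X.mul_right _
  have hMB : (1 - X * C (toR B) : PowerSeries (MA ι G)) = (1 - X * C (toR B - V)) * (h - b) := by
    have e1 : h - b = 1 - X * C V := by rw [hh, hb, map_sub, mul_sub]; abel
    have e2 : (X * C (toR B - V) : PowerSeries (MA ι G)) * (X * C V) = 0 := by
      rw [mul_assoc, ← mul_assoc (C _) X, (commute_X (C _)).eq, mul_assoc, ← map_mul, hBV, map_zero,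
        mul_zero, mul_zero]
    rw [e1, sub_mul, one_mul, mul_sub, mul_one, e2, map_sub, mul_sub]
    abel
  obtain ⟨yy, N, hy1, hy2, hyv, hyN, hct⟩ := round o e hep (a - b)
    (by rw [sub_mul, ha1, hb1]) (by rw [mul_sub, ha2, hb2, sub_zero]) (ha0.sub hb0)
  rw [← hp] at hy1 hy2
  rw [← hh] at hct
  have hct1 : (a - b - yy * h) * C p = a - b - yy * h := by
    have : yy * h * C p = yy * h := by
      rw [hh, mul_sub, mul_one, sub_mul, hy1, mul_assoc, mul_assoc, ← map_mul, hep]
    rw [sub_mul, sub_mul, ha1, hb1, this]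
  have hct2 : C p * (a - b - yy * h) = 0 := by
    rw [mul_sub, mul_sub, ha2, hb2, ← mul_assoc, hy2]; simp
  have hhct : h * (a - b - yy * h) = a - b - yy * h := by
    have : X * C e * (a - b - yy * h) = 0 := by
      rw [← hep, map_mul, mul_assoc, mul_assoc, hct2, mul_zero, mul_zero]
    nth_rewrite 1 [hh]
    rw [sub_mul, one_mul, this, sub_zero]
  have halg := alg (C p) h a b yy ha2 hb1 hy1 hct2 hhct
  have hct0 : Van 1 (a - b - yy * h) := (ha0.sub hb0).sub (hyv.mul_right _)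
  have hyB : yy ∈ BB (MA ι G) ρ hρ := ⟨_, bd_of_coeff_le hρ hρ1 (van_zero yy) hyN⟩
  have haB' : a ∈ BB (MA ι G) ρ hρ := haB
  have hhB : h ∈ BB (MA ι G) ρ hρ :=
    Subring.sub_mem _ (Subring.one_mem _) (Subring.mul_mem _ (BB_X hρ) (BB_C hρ _))
  have hbB : b ∈ BB (MA ι G) ρ hρ := Subring.mul_mem _ (BB_X hρ) (BB_C hρ _)
  have hctB : a - b - yy * h ∈ BB (MA ι G) ρ hρ :=
    Subring.sub_mem _ (Subring.sub_mem _ haB' hbB) (Subring.mul_mem _ hyB hhB)
  generalize a - b - yy * h = ct at hct hct1 hct2 hhct halg hct0 hctB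
  have hyy : yy * yy = 0 := by rw [← hy1, mul_assoc, ← mul_assoc (C p), hy2]; simp
  have hn1 : (-ct) * C p = -ct := by rw [neg_mul, hct1]
  have hn2 : C p * (-ct) = 0 := by rw [mul_neg, hct2, neg_zero]
  have hnn : (-ct) * (-ct) = 0 := by
    nth_rewrite 1 [← hn1]
    rw [mul_assoc, hn2, mul_zero]
  have hv1 : Van 1 (X * C (toR B) : PowerSeries (MA ι G)) := van_X.mul_right _
  have hv2 : Van 1 (X * C (toR B - V) : PowerSeries (MA ι G)) := van_X.mul_right _
  set Xu : (PowerSeries (MA ι G))ˣ := u1 _ hv1 * usq (-ct) hnn * T⁻¹ with hXu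
  have hXval : (Xu : PowerSeries (MA ι G)) =
      (1 - X * C (toR B)) * (1 + -ct) * ((T⁻¹ : (PowerSeries (MA ι G))ˣ) : PowerSeries (MA ι G)) := rfl
  have hXu2 : Xu = u1 _ hv2 * usq yy hyy * Tf⁻¹ := by
    apply Units.ext
    rw [hXval, Units.val_mul, Units.val_mul, u1_val, usq_val, hMB, mul_assoc _ (h - b), halg]
    have : h - a = ((Tf⁻¹ : (PowerSeries (MA ι G))ˣ) : PowerSeries (MA ι G)) * T := by
      rw [hTfac, ← mul_assoc, Units.inv_mul, one_mul]
    rw [this]
    simp only [mul_assoc, Units.mul_inv, mul_one]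
  have hXC : ∀ z : MA ι G, (1 - X * C z : PowerSeries (MA ι G)) ∈ BB (MA ι G) ρ hρ := fun z =>
    Subring.sub_mem _ (Subring.one_mem _) (Subring.mul_mem _ (BB_X hρ) (BB_C hρ _))
  have hXB : (Xu : PowerSeries (MA ι G)) ∈ BB (MA ι G) ρ hρ := by
    rw [hXu2, Units.val_mul, Units.val_mul, u1_val, usq_val]
    exact Subring.mul_mem _ (Subring.mul_mem _ (hXC _) (Subring.add_mem _ (Subring.one_mem _) hyB))
      hTfiB
  have hXiB : ((Xu⁻¹ : (PowerSeries (MA ι G))ˣ) : PowerSeries (MA ι G)) ∈ BB (MA ι G) ρ hρ := by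
    rw [hXu2, mul_inv_rev, mul_inv_rev, inv_inv, Units.val_mul, Units.val_mul, u1_inv, usq_inv]
    refine Subring.mul_mem _ hTfB (Subring.mul_mem _ (Subring.sub_mem _ (Subring.one_mem _) hyB) ?_)
    refine bd_of_summable hρ ?_
    rw [iv_X_mul_C]
    simpa only [coeff_mk] using hsB
  have hMBZ : (1 - X * C (toR B) : PowerSeries (MA ι G)) ∈ cfr (ZZ ι G) :=
    Subring.sub_mem _ (Subring.one_mem _) (Subring.mul_mem _ cfr_X (cfr_C ⟨B, rfl⟩))
  have hXZ : (Xu : PowerSeries (MA ι G)) ∈ cfr (ZZ ι G) := by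
    rw [hXval]
    exact Subring.mul_mem _ (Subring.mul_mem _ hMBZ
      (Subring.add_mem _ (Subring.one_mem _) (Subring.neg_mem _ hct))) hTiZ
  have hTi0 : coeff 0 ((T⁻¹ : (PowerSeries (MA ι G))ˣ) : PowerSeries (MA ι G)) = 1 := by
    have := coeff_zero_mul' (T : PowerSeries (MA ι G)) ((T⁻¹ : (PowerSeries (MA ι G))ˣ) : PowerSeries (MA ι G))
    rw [Units.mul_inv, hT0, one_mul] at this
    rw [← this]; simp
  have hX0 : coeff 0 (Xu : PowerSeries (MA ι G)) = 1 := by
    rw [hXval, coeff_zero_mul', coeff_zero_mul', hTi0, map_sub, map_add, map_neg,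
      van_one_iff.1 hv1, van_one_iff.1 hct0]
    simp
  have hXtau : ∀ k, tau (ctr G o) Xu k = 0 := by
    intro k
    rw [hXu, tau_mul _ (H161C.ctr_comm o), tau_mul _ (H161C.ctr_comm o),
      tau_inv _ (H161C.ctr_comm o), tau_u1_X_mul_C, tau_col _ (H161C.ctr_comm o) p _ hn1 hn2, hTtau]
    split_ifs with hk
    · simp
    · rw [htr k (Nat.pos_of_ne_zero hk)]; simp
  obtain ⟨cT, hcT⟩ : (T : PowerSeries (MA ι G)) ∈ BB (MA ι G) ρ hρ := by
    rw [hTfac]
    exact Subring.mul_mem _ hTfB (Subring.sub_mem _ hhB haB')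
  have hcT0 := hcT.nonneg
  have hCU0 : 0 ≤ CU := le_trans (by positivity) (hCU 0)
  set n1 : ℝ := ‖(1 : MA ι G)‖ with hn1d
  have hn10 : 0 ≤ n1 := norm_nonneg _
  set D : ℝ := (n1 + 2) * cT * CU + 1 with hD
  have hD0 : 0 < D := by positivity
  set η : ℝ := min 1 (c / (2 * D)) with hη
  have hη0 : 0 < η := lt_min one_pos (by positivity)
  have hη1 : η ≤ 1 := min_le_left _ _
  have hηD : η * D ≤ c / 2 := by
    have : η ≤ c / (2 * D) := min_le_right _ _
    rw [le_div_iff₀ (by positivity)] at this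
    linarith
  set K : ℕ := max k2 1 with hK
  obtain ⟨E, hG, hsV, hsBd⟩ := hU Xu hX0 hXZ hXB hXiB hXtau K η hη0
  obtain ⟨cc, hcc⟩ := hctB
  obtain ⟨K0, hK0⟩ := hcc.tail hρ η hη0
  set K' : ℕ := max K K0 with hK'
  have hs'B : Bd ρ (ct - trn K' ct) η := hK0 K' (le_max_right _ _)
  have hs'V : Van K (ct - trn K' ct) := (van_sub_trn K' ct).mono (le_max_left _ _)
  have htZ : trn K' ct ∈ cfr (ZZ ι G) := trn_cf (S := (ZZ ι G).toSubsemiring) hct K'
  have ht1 : trn K' ct * C p = trn K' ct := by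
    ext1 k
    rw [coeff_mul_C, coeff_trn]
    split_ifs
    · rw [← coeff_mul_C, hct1]
    · rw [zero_mul]
  have ht2 : C p * trn K' ct = 0 := by
    ext1 k
    rw [coeff_C_mul, coeff_trn, map_zero]
    split_ifs
    · rw [← coeff_C_mul, hct2, map_zero]
    · rw [mul_zero]
  have htF : FinS (trn K' ct) := trn_finS K' ct
  generalize trn K' ct = t at hs'B hs'V htZ ht1 ht2 htF
  have htt : t * t = 0 := by
    nth_rewrite 1 [← ht1]
    rw [mul_assoc, ht2, mul_zero]
  have hcs : ct * (ct - t) = 0 := by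
    nth_rewrite 1 [← hct1]
    rw [mul_assoc, mul_sub, hct2, ht2, sub_zero, mul_zero]
  set s : PowerSeries (MA ι G) := (E : PowerSeries (MA ι G)) * Xu - 1 with hs
  have hW : (E : PowerSeries (MA ι G)) * (1 - X * C (toR B)) * (1 - t) =
      (1 + s) * (T : PowerSeries (MA ι G)) * (1 + (ct - t)) := by
    have e1 : (1 + s) * (T : PowerSeries (MA ι G)) = (E : PowerSeries (MA ι G)) * (1 - X * C (toR B)) * (1 + -ct) := by
      rw [hs, add_sub_cancel, hXval]
      simp only [mul_assoc, Units.inv_mul, mul_one]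
    have e2 : (1 + -ct) * (1 + (ct - t)) = 1 - t := by
      calc (1 + -ct) * (1 + (ct - t)) = 1 - t - ct * (ct - t) := by noncomm_ring
        _ = 1 - t := by rw [hcs, sub_zero]
    rw [e1, mul_assoc _ (1 + -ct), e2]
  set g : PowerSeries (MA ι G) := s * (T : PowerSeries (MA ι G)) + (1 + s) * (T : PowerSeries (MA ι G)) * (ct - t) with hg
  have hgV : Van K g := (hsV.mul_right _).add (hs'V.mul_left _)
  have hgB : Bd y g (η * cT + (n1 + η) * cT * η) :=
    ((hsBd.mul hρ hcT).add hρ ((((Bd.one hρ).add hρ hsBd).mul hρ hcT).mul hρ hs'B)).mono hy0.le hyρ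
  have herr : ∀ k, ‖coeff k (g * iv Q)‖ * y ^ k ≤ c / 2 := by
    intro k
    refine (sup_bound hy0.le hgB hCU k).trans (le_trans ?_ hηD)
    have h1 : (n1 + η) * cT * η ≤ (n1 + 1) * cT * η := by gcongr
    have h2 : (η * cT + (n1 + η) * cT * η) * CU ≤ (η * cT + (n1 + 1) * cT * η) * CU := by gcongr
    have h3 : (η * cT + (n1 + 1) * cT * η) * CU = η * ((n1 + 2) * cT * CU) := by ring
    have h4 : η * D = η * ((n1 + 2) * cT * CU) + η := by rw [hD]; ring
    linarith
  set F : PowerSeries (MA ι G) :=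
    1 - (E : PowerSeries (MA ι G)) * (1 - X * C (toR B)) * (1 - t) * iv Q with hF
  have hFeq : F = (1 - (T : PowerSeries (MA ι G)) * iv Q) - g * iv Q := by
    rw [hF, hW, hg]
    noncomm_ring
  have hFZ : F ∈ cfr (ZZ ι G) :=
    Subring.sub_mem _ (Subring.one_mem _) (Subring.mul_mem _ (Subring.mul_mem _
      (Subring.mul_mem _ hG.1 hMBZ) (Subring.sub_mem _ (Subring.one_mem _) htZ)) (iv_cfr hQZ hQ0))
  have hlow : ∀ k, k < K → coeff k F = coeff k (1 - (T : PowerSeries (MA ι G)) * iv Q) := by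
    intro k hk
    rw [hFeq, map_sub _ _ (g * iv Q), (hgV.mul_right _) k hk, sub_zero]
  have hpos : ∀ k, K ≤ k → ∀ i j x, 0 < ((coeff k F : MA ι G) i j).coeff x := by
    intro k hk i j x
    have h1 := hFc k (le_trans (le_max_left _ _) hk) i j x
    have h2 := herr k
    have h3 := H161C.coeff_le (coeff k (g * iv Q)) i j x
    have hyk : 0 < y ^ k := by positivity
    have h4 : ((coeff k (g * iv Q) : MA ι G) i j).coeff x * y ^ k ≤ c / 2 :=
      le_trans (mul_le_mul_of_nonneg_right ((le_abs_self _).trans h3) hyk.le) h2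
    rw [hFeq, map_sub _ _ (g * iv Q), Matrix.sub_apply, MonoidAlgebra.coeff_sub, Finsupp.sub_apply]
    refine (mul_pos_iff_of_pos_right hyk).1 ?_
    rw [sub_mul]
    linarith
  have hF0 : coeff 0 F = 0 := by
    rw [hlow 0 (lt_of_lt_of_le one_pos (le_max_right _ _)), map_sub, coeff_zero_mul', hT0,
      coeff_zero_iv hQ0]
    simp
  have hnn' : ∀ k i j x, 0 ≤ ((coeff k F : MA ι G) i j).coeff x := by
    intro k i j x
    by_cases hk : k < K
    · rw [hlow k hk]
      exact hFN k i j x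
    · exact (hpos k (by omega) i j x).le
  obtain ⟨E1, hE1⟩ := lift_poly _ hG.1 hG.2.1
  obtain ⟨E2, hE2⟩ := lift_poly _ hG.2.2.1 hG.2.2.2.1
  obtain ⟨t1, ht1'⟩ := lift_poly _ htZ htF
  obtain ⟨Q1, hQ1⟩ := lift_poly _ hQZ hQfin
  obtain ⟨F1, hF1⟩ := lift_ps _ hFZ
  have inj : Function.Injective (PowerSeries.map (toR : MZ ι G →+* MA ι G)) :=
    PowerSeries.map_injective _ H161C.toR_inj
  let Φ : Polynomial (MZ ι G) →+* PowerSeries (MA ι G) :=
    (PowerSeries.map toR).comp Polynomial.coeToPowerSeries.ringHom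
  have hΦ : ∀ z : Polynomial (MZ ι G), Φ z = PowerSeries.map toR (z : PowerSeries (MZ ι G)) :=
    fun _ => rfl
  have injΦ : Function.Injective Φ := inj.comp (Polynomial.coe_injective _)
  have cF : ∀ k i j x, ((coeff k F1 i j).coeff x : ℝ) = ((coeff k F : MA ι G) i j).coeff x := by
    intro k i j x
    rw [← hF1, coeff_map, toR_coeff]
  have cQ : ∀ k i j x, ((Q1.coeff k i j).coeff x : ℝ) = ((coeff k Q : MA ι G) i j).coeff x := by
    intro k i j x
    rw [← hQ1, coeff_map, toR_coeff, Polynomial.coeff_coe]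
  refine ⟨E1, E2, 1 - t1, 1 + t1, Q1, F1, K, injΦ ?_, injΦ ?_, injΦ ?_, injΦ ?_, inj ?_, ?_, ?_, ?_,
    ?_, ?_, ?_⟩
  · rw [map_mul, map_one, hΦ, hΦ, hE1, hE2, Units.mul_inv]
  · rw [map_mul, map_one, hΦ, hΦ, hE1, hE2, Units.inv_mul]
  · rw [map_mul, map_sub, map_add, map_one, hΦ, ht1', sub_mul, mul_add, mul_add, htt]; simp
  · rw [map_mul, map_sub, map_add, map_one, hΦ, ht1', add_mul, mul_sub, mul_sub, htt]; simp
  · rw [← hΦ, map_mul, map_mul, map_sub, map_sub, map_mul, map_one, map_mul, map_sub, map_sub, map_one,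
      hΦ, hΦ, hΦ, hΦ, hE1, ht1', hQ1, hF1, Polynomial.coe_X, Polynomial.coe_C, map_X, map_C, hF,
      sub_sub_cancel, mul_assoc _ (iv Q), iv_mul hQ0, mul_one]
  · apply H161C.toR_inj
    rw [← coeff_map, hF1, hF0, map_zero]
  · intro k i j x
    have := hnn' k i j x
    rw [← cF] at this
    exact_mod_cast this
  · intro k hk i j x
    have := hpos k hk i j x
    rw [← cF] at this
    exact_mod_cast this
  · apply H161C.toR_inj
    rw [← Polynomial.coeff_coe, ← coeff_map, hQ1, van_one_iff.1 hQ0, map_zero]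
  · intro k i j x
    have := hQN k i j x
    rw [← cQ] at this
    exact_mod_cast this
  · intro j
    obtain ⟨k, i, x, hx⟩ := hQpos j
    rw [← cQ] at hx
    exact ⟨k, i, x, by exact_mod_cast hx⟩

end Pool.Agent.H123Z.GSC
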