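import Pool.Agent.H130Z.NS.Act

set_option autoImplicit false

open MeasureTheory Filter Set Metric
open scoped MatrixGroups Topology ENNReal
open Pool.Agent.H130Z.NS

namespace Pool.Agent.H268Z

/-- Comparison of two finite measures on the line through off-centre windows. -/
theorem diff_lemma (α β : Measure ℝ) [IsFiniteMeasure α] [IsFiniteMeasure β] (hα : α ≪ volume)
    (c : ℝ≥0∞) (hc : c ≠ ∞) (L ρ C : ℝ) (hL : 1 ≤ L) (hρ : 0 < ρ)
    (H : ∀ θ Δ : ℝ, 0 < Δ → Δ ≤ 1 → ∃ θ' : ℝ, |θ' - θ| ≤ C * Δ ∧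
      α (closedBall θ' (ρ * Δ)) ≤ c * β (closedBall θ' (L * (ρ * Δ)))) :
    α univ ≤ c * ENNReal.ofReal L * β univ := by
  have hL0 : 0 < L := by linarith
  set K : ℝ := |C| / ρ with hK
  have hK0 : 0 ≤ K := by positivity
  let v := IsUnifLocDoublingMeasure.vitaliFamily (volume : Measure ℝ) K
  have h1 := v.ae_tendsto_rnDeriv α
  have h2 := v.ae_tendsto_rnDeriv β
  have key : ∀ᵐ θ ∂(volume : Measure ℝ),
      α.rnDeriv volume θ ≤ c * ENNReal.ofReal L * β.rnDeriv volume θ := by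
    filter_upwards [h1, h2] with θ h1 h2
    have H' : ∀ Δ : ℝ, ∃ θ' : ℝ, 0 < Δ → Δ ≤ 1 → |θ' - θ| ≤ C * Δ ∧
        α (closedBall θ' (ρ * Δ)) ≤ c * β (closedBall θ' (L * (ρ * Δ))) := by
      intro Δ
      by_cases h : 0 < Δ ∧ Δ ≤ 1
      · obtain ⟨θ', h'⟩ := H θ Δ h.1 h.2
        exact ⟨θ', fun _ _ => h'⟩
      · exact ⟨0, fun a b => absurd ⟨a, b⟩ h⟩
    choose w hw using H'
    have hev : ∀ᶠ Δ in 𝓝[>] (0:ℝ), 0 < Δ ∧ Δ ≤ 1 := by
      have : Ioc (0:ℝ) 1 ∈ 𝓝[>] (0:ℝ) := Ioc_mem_nhdsGT one_pos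
      exact this
    have lim : ∀ a : ℝ, 0 < a → Tendsto (fun Δ : ℝ => a * Δ) (𝓝[>] 0) (𝓝[>] 0) := by
      intro a ha
      refine tendsto_nhdsWithin_iff.2 ⟨?_, ?_⟩
      · have : Tendsto (fun Δ : ℝ => a * Δ) (𝓝 0) (𝓝 (a * 0)) :=
          (continuous_const.mul continuous_id).tendsto 0
        rw [mul_zero] at this
        exact this.mono_left nhdsWithin_le_nhds
      · filter_upwards [self_mem_nhdsWithin] with x hx
        exact mul_pos ha hx
    have mem1 : ∀ᶠ Δ in 𝓝[>] (0:ℝ), θ ∈ closedBall (w Δ) (K * (ρ * Δ)) := by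
      filter_upwards [hev] with Δ hΔ
      have := (hw Δ hΔ.1 hΔ.2).1
      rw [mem_closedBall, Real.dist_eq, abs_sub_comm]
      have e : K * (ρ * Δ) = |C| * Δ := by rw [hK]; field_simp
      rw [e]
      exact this.trans (mul_le_mul_of_nonneg_right (le_abs_self C) hΔ.1.le)
    have mem2 : ∀ᶠ Δ in 𝓝[>] (0:ℝ), θ ∈ closedBall (w Δ) (K * (L * (ρ * Δ))) := by
      filter_upwards [hev, mem1] with Δ hΔ h
      refine closedBall_subset_closedBall ?_ h
      have : 0 ≤ ρ * Δ := by have := hΔ.1; positivity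
      exact mul_le_mul_of_nonneg_left (by nlinarith) hK0
    have t1 := h1.comp (IsUnifLocDoublingMeasure.tendsto_closedBall_filterAt volume w
      (fun Δ => ρ * Δ) (lim ρ hρ) mem1)
    have l2 : Tendsto (fun Δ : ℝ => L * (ρ * Δ)) (𝓝[>] 0) (𝓝[>] 0) := by
      have := lim (L * ρ) (by positivity)
      simpa [mul_assoc] using this
    have t2 := h2.comp (IsUnifLocDoublingMeasure.tendsto_closedBall_filterAt volume w
      (fun Δ => L * (ρ * Δ)) l2 mem2)
    have t3 := ENNReal.Tendsto.const_mul (a := c * ENNReal.ofReal L) t2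
      (Or.inr (ENNReal.mul_ne_top hc ENNReal.ofReal_ne_top))
    refine le_of_tendsto_of_tendsto t1 t3 ?_
    filter_upwards [hev] with Δ hΔ
    have hb := (hw Δ hΔ.1 hΔ.2).2
    have hpos : 0 < ρ * Δ := mul_pos hρ hΔ.1
    simp only [Function.comp, Real.volume_closedBall]
    have e : ENNReal.ofReal (2 * (L * (ρ * Δ))) = ENNReal.ofReal L * ENNReal.ofReal (2 * (ρ * Δ)) := by
      rw [← ENNReal.ofReal_mul hL0.le]; congr 1; ring
    rw [e]
    have hL' : ENNReal.ofReal L ≠ 0 := by simpa using hL0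
    calc α (closedBall (w Δ) (ρ * Δ)) / ENNReal.ofReal (2 * (ρ * Δ))
        ≤ c * β (closedBall (w Δ) (L * (ρ * Δ))) / ENNReal.ofReal (2 * (ρ * Δ)) :=
          ENNReal.div_le_div_right hb _
      _ = c * ENNReal.ofReal L * (β (closedBall (w Δ) (L * (ρ * Δ))) /
            (ENNReal.ofReal L * ENNReal.ofReal (2 * (ρ * Δ)))) := by
          rw [mul_assoc, mul_div_assoc]
          congr 1
          rw [← mul_div_assoc, ENNReal.mul_div_mul_left _ _ hL' ENNReal.ofReal_ne_top]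
  calc α univ = ∫⁻ θ, α.rnDeriv volume θ := (Measure.lintegral_rnDeriv hα).symm
    _ ≤ ∫⁻ θ, c * ENNReal.ofReal L * β.rnDeriv volume θ := lintegral_mono_ae key
    _ = c * ENNReal.ofReal L * ∫⁻ θ, β.rnDeriv volume θ :=
        lintegral_const_mul _ (Measure.measurable_rnDeriv _ _)
    _ ≤ c * ENNReal.ofReal L * β univ := by
        gcongr
        exact Measure.lintegral_rnDeriv_le

/-- The conjugated matrix is triangular in coordinates adapted to its eigenray. -/
theorem act_conj (θ δ : ℝ) (hδ : 0 < δ) (M : SL(2, ℝ)) (w : ℝ × ℝ) (s : ℝ) (hs : s ≠ 0)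
    (hw : w.2 ≠ 0) (he : act M w = s • w) (v : ℝ × ℝ) :
    act ((hm θ δ hδ.ne')⁻¹ * M * hm θ δ hδ.ne') v =
      ((θ + δ ^ 2 * (w.1 / w.2)) *
          (s * v.2 + M 0 1 * (v.1 - (θ + δ ^ 2 * (w.1 / w.2)) * v.2) / δ ^ 2) +
          (v.1 - (θ + δ ^ 2 * (w.1 / w.2)) * v.2) / s,
        s * v.2 + M 0 1 * (v.1 - (θ + δ ^ 2 * (w.1 / w.2)) * v.2) / δ ^ 2) := by
  have hδ' := hδ.ne'
  have hh : ∀ u : ℝ × ℝ, act (hm θ δ hδ.ne') u = (u.1 * δ + u.2 * (θ / δ), u.2 * (1 / δ)) := by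
    intro u
    simp [act, hm]
  have hinv : act (hm θ δ hδ.ne')⁻¹ v = ((v.1 - θ * v.2) / δ, δ * v.2) := by
    have : v = act (hm θ δ hδ.ne') ((v.1 - θ * v.2) / δ, δ * v.2) := by
      rw [hh]
      ext
      · simp only; field_simp; ring
      · simp only; field_simp
    conv_lhs => rw [this, ← act_mul, mul_inv_cancel, act_one]
  rw [act_mul, act_mul, hinv, hh]
  have e1 : w.1 * M 0 0 + w.2 * M 1 0 = s * w.1 := by
    have := congrArg Prod.fst he
    simpa [act] using this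
  have e2 : w.1 * M 0 1 + w.2 * M 1 1 = s * w.2 := by
    have := congrArg Prod.snd he
    simpa [act] using this
  have hd := det_eq M
  set σ := w.1 / w.2 with hσ
  have hw1 : w.1 = σ * w.2 := by rw [hσ]; field_simp
  have f1 : M 1 0 = s * σ - σ * M 0 0 := by
    apply mul_left_cancel₀ hw
    rw [hw1] at e1
    linarith
  have f2 : M 1 1 = s - σ * M 0 1 := by
    apply mul_left_cancel₀ hw
    rw [hw1] at e2
    linarith
  have f3 : M 0 0 = 1 / s + σ * M 0 1 := by
    rw [f1, f2] at hd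
    field_simp
    linarith
  simp only [act]
  rw [f1, f2, f3]
  ext
  · simp only; field_simp; ring
  · simp only; field_simp; ring

theorem slope_null (N : Set ℝ) (hN : MeasurableSet N) (h0 : volume N = 0) :
    volume ({v : ℝ × ℝ | v.2 ≠ 0} ∩ (fun v : ℝ × ℝ => v.1 / v.2) ⁻¹' N) = 0 := by
  have hm : MeasurableSet ({v : ℝ × ℝ | v.2 ≠ 0} ∩ (fun v : ℝ × ℝ => v.1 / v.2) ⁻¹' N) := by
    refine MeasurableSet.inter ?_ ((measurable_fst.div measurable_snd) hN)
    exact (measurableSet_eq_fun measurable_snd measurable_const).compl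
  rw [Measure.volume_eq_prod, Measure.prod_apply_symm hm]
  refine (lintegral_congr fun y => ?_).trans lintegral_zero
  by_cases hy : y = 0
  · have : (fun x : ℝ => (x, y)) ⁻¹' ({v : ℝ × ℝ | v.2 ≠ 0} ∩ (fun v : ℝ × ℝ => v.1 / v.2) ⁻¹' N)
        = ∅ := by
      ext x; simp [hy]
    rw [this, measure_empty]
  · have : (fun x : ℝ => (x, y)) ⁻¹' ({v : ℝ × ℝ | v.2 ≠ 0} ∩ (fun v : ℝ × ℝ => v.1 / v.2) ⁻¹' N)
        = (fun x : ℝ => y⁻¹ • x) ⁻¹' N := by
      ext x; simp [hy, div_eq_inv_mul]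
    rw [this, Measure.addHaar_preimage_smul _ (inv_ne_zero hy), h0, mul_zero]

theorem geom (s C n ρ Δ θ' b : ℝ) (v : ℝ × ℝ) (hs : s ≠ 0) (hn : 1 ≤ n) (hρ : 0 < ρ) (hρ1 : ρ ≤ 1)
    (hΔ : 0 < Δ) (hΔ1 : Δ ≤ 1) (hb : |b| ≤ C) (hsm : C * n * ρ ≤ |s| / (2 * n))
    (h1 : 1 / n ≤ |v.2|) (h2 : ‖v‖ ≤ n) (h3 : |v.1 / v.2 - θ'| ≤ ρ * Δ) :
    dist ((θ' * (s * v.2 + b * (v.1 - θ' * v.2) / Δ) + (v.1 - θ' * v.2) / s,
        s * v.2 + b * (v.1 - θ' * v.2) / Δ) : ℝ × ℝ) (s • v)
      ≤ ((n ^ 2 + 1) * (C * n) + n / |s| + |s| * n + C * n) * ρ ∧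
    |(θ' * (s * v.2 + b * (v.1 - θ' * v.2) / Δ) + (v.1 - θ' * v.2) / s) /
        (s * v.2 + b * (v.1 - θ' * v.2) / Δ) - θ'| ≤ (2 * n ^ 2 / s ^ 2 + 1) * (ρ * Δ) := by
  have hn0 : 0 < n := by linarith
  have hC : 0 ≤ C := (abs_nonneg b).trans hb
  have hsa : 0 < |s| := abs_pos.2 hs
  have hy0 : 0 < |v.2| := lt_of_lt_of_le (by positivity) h1
  have hy : v.2 ≠ 0 := abs_pos.1 hy0
  have hx : |v.1| ≤ n := (norm_fst_le v).trans h2
  have hyn : |v.2| ≤ n := (norm_snd_le v).trans h2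
  set t := v.1 - θ' * v.2 with ht
  have htb : |t| ≤ n * (ρ * Δ) := by
    have : t = v.2 * (v.1 / v.2 - θ') := by rw [ht]; field_simp
    rw [this, abs_mul]
    exact mul_le_mul hyn h3 (abs_nonneg _) hn0.le
  have hρΔ : ρ * Δ ≤ ρ := by nlinarith
  have htb' : |t| ≤ n * ρ := htb.trans (mul_le_mul_of_nonneg_left hρΔ hn0.le)
  have hsl : |v.1 / v.2| ≤ n ^ 2 := by
    rw [abs_div, div_le_iff₀ hy0]
    have : n ^ 2 * (1 / n) = n := by field_simp
    have := mul_le_mul_of_nonneg_left h1 (sq_nonneg n)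
    linarith
  have hθ : |θ'| ≤ n ^ 2 + 1 := by
    have e : θ' = v.1 / v.2 - (v.1 / v.2 - θ') := by ring
    rw [e]
    have := abs_sub (v.1 / v.2) (v.1 / v.2 - θ')
    linarith
  set u := b * t / Δ with hu
  have hub : |u| ≤ C * n * ρ := by
    rw [hu, abs_div, abs_mul, abs_of_pos hΔ, div_le_iff₀ hΔ]
    calc |b| * |t| ≤ C * (n * (ρ * Δ)) := mul_le_mul hb htb (abs_nonneg _) hC
      _ = C * n * ρ * Δ := by ring
  have p1 : 0 ≤ (n ^ 2 + 1) * (C * n) * ρ := by positivity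
  have p2 : 0 ≤ n / |s| * ρ := by positivity
  have p3 : 0 ≤ |s| * n * ρ := by positivity
  have p4 : 0 ≤ C * n * ρ := by positivity
  constructor
  · rw [Prod.dist_eq, max_le_iff]
    simp only [Prod.smul_fst, Prod.smul_snd, smul_eq_mul, Real.dist_eq]
    constructor
    · have e : θ' * (s * v.2 + u) + t / s - s * v.1 = θ' * u + t / s - s * t := by
        rw [ht]; ring
      rw [e]
      have a1 : |θ' * u| ≤ (n ^ 2 + 1) * (C * n) * ρ := by
        rw [abs_mul]
        calc |θ'| * |u| ≤ (n ^ 2 + 1) * (C * n * ρ) :=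
              mul_le_mul hθ hub (abs_nonneg _) (by positivity)
          _ = _ := by ring
      have a2 : |t / s| ≤ n / |s| * ρ := by
        rw [abs_div, div_mul_eq_mul_div]
        exact div_le_div_of_nonneg_right htb' hsa.le
      have a3 : |s * t| ≤ |s| * n * ρ := by
        rw [abs_mul, mul_assoc]
        exact mul_le_mul_of_nonneg_left htb' hsa.le
      have := abs_sub (θ' * u + t / s) (s * t)
      have := abs_add_le (θ' * u) (t / s)
      nlinarith
    · have e : s * v.2 + u - s * v.2 = u := by ring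
      rw [e]
      nlinarith
  · have hy' : |s| / (2 * n) ≤ |s * v.2 + u| := by
      have a1 : |s| / n ≤ |s * v.2| := by
        rw [abs_mul, div_eq_mul_one_div]
        exact mul_le_mul_of_nonneg_left h1 hsa.le
      have a2 : |s * v.2| ≤ |s * v.2 + u| + |u| := by
        have := abs_sub (s * v.2 + u) u
        rwa [add_sub_cancel_right] at this
      have a3 : |s| / n = |s| / (2 * n) + |s| / (2 * n) := by field_simp; ring
      linarith
    have hpos : 0 < |s| / (2 * n) := by positivity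
    have hy0' : 0 < |s * v.2 + u| := lt_of_lt_of_le hpos hy'
    have hne : s * v.2 + u ≠ 0 := abs_pos.1 hy0'
    have e : (θ' * (s * v.2 + u) + t / s) / (s * v.2 + u) - θ' = (t / s) / (s * v.2 + u) := by
      field_simp; ring
    rw [e, abs_div, abs_div]
    have q : 0 ≤ ρ * Δ := by positivity
    calc |t| / |s| / |s * v.2 + u| ≤ (n * (ρ * Δ) / |s|) / (|s| / (2 * n)) := by gcongr
      _ = (2 * n ^ 2 / s ^ 2) * (ρ * Δ) := by
          rw [← sq_abs s]; field_simp
      _ ≤ _ := by nlinarith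

theorem strip (E E' : Set (ℝ × ℝ)) (hE : MeasurableSet E) (hE' : MeasurableSet E') (s C : ℝ)
    (hs : s ≠ 0)
    (H : ∀ (θ δ : ℝ) (hδ : 0 < δ), ∃ (M : SL(2, ℝ)) (w : ℝ × ℝ), (∀ i j, |M i j| ≤ C) ∧ w.2 ≠ 0 ∧
      |w.1| ≤ C * |w.2| ∧ act M w = s • w ∧
      (act ((hm θ δ hδ.ne')⁻¹ * M * hm θ δ hδ.ne')) ⁻¹' E =ᵐ[volume] E')
    (n : ℝ) (hn : 1 ≤ n) :
    volume ({v : ℝ × ℝ | ¬ (v ∈ E' ↔ s • v ∈ E)} ∩ {v | 1 / n ≤ |v.2| ∧ ‖v‖ ≤ n}) = 0 := by
  have hn0 : 0 < n := by linarith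
  have hsa : 0 < |s| := abs_pos.2 hs
  have hC : 0 ≤ C := by
    obtain ⟨M, -, h, -⟩ := H 0 1 one_pos
    exact (abs_nonneg _).trans (h 0 0)
  set D := {v : ℝ × ℝ | ¬ (v ∈ E' ↔ s • v ∈ E)} ∩ {v | 1 / n ≤ |v.2| ∧ ‖v‖ ≤ n} with hD
  have hsm : Measurable (fun v : ℝ × ℝ => s • v) := by fun_prop
  have hDm : MeasurableSet D := by
    refine MeasurableSet.inter ?_ (MeasurableSet.inter ?_ ?_)
    · exact (MeasurableSet.iff hE' (hsm hE)).compl
    · exact measurableSet_le measurable_const (continuous_snd.abs.measurable)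
    · exact measurableSet_le measurable_norm measurable_const
  have hDf : volume D ≠ ∞ := by
    refine ne_top_of_le_ne_top (measure_closedBall_lt_top (x := (0 : ℝ × ℝ)) (r := n)).ne
      (measure_mono fun v hv => ?_)
    simpa using hv.2.2
  by_contra hne
  set c : ℝ≥0∞ := 1 + ENNReal.ofReal (abs (s ^ Module.finrank ℝ (ℝ × ℝ))⁻¹) with hc
  have hc' : c ≠ ∞ := ENNReal.add_ne_top.2 ⟨ENNReal.one_ne_top, ENNReal.ofReal_ne_top⟩
  set L : ℝ := 2 * n ^ 2 / s ^ 2 + 1 with hL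
  have hL1 : 1 ≤ L := by
    have : 0 ≤ 2 * n ^ 2 / s ^ 2 := by positivity
    linarith
  obtain ⟨ε, hε, hεlt⟩ := ENNReal.exists_nnreal_pos_mul_lt
    (a := c * ENNReal.ofReal L * 2)
    (ENNReal.mul_ne_top (ENNReal.mul_ne_top hc' ENNReal.ofReal_ne_top) (by simp)) hne
  have hε' : (ε : ℝ≥0∞) ≠ 0 := by simpa using hε.ne'
  set E0 := E ∩ closedBall (0 : ℝ × ℝ) (|s| * n + 1) with hE0
  have hE0m : MeasurableSet E0 := hE.inter measurableSet_closedBall
  have hE0f : volume E0 ≠ ∞ :=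
    ne_top_of_le_ne_top measure_closedBall_lt_top.ne (measure_mono inter_subset_right)
  obtain ⟨U, hEU, hUo, -, hU⟩ := hE0m.exists_isOpen_sdiff_lt hE0f hε'
  obtain ⟨K, hKE, hKc, hK⟩ := hE0m.exists_isCompact_sdiff_lt hE0f hε'
  obtain ⟨η, hη, hηU⟩ := hKc.exists_cthickening_subset_open hUo (hKE.trans hEU)
  set B := U \ K with hB
  have hBm : MeasurableSet B := hUo.measurableSet.diff hKc.measurableSet
  have hBle : volume B ≤ ε + ε := by
    calc volume B ≤ volume ((U \ E0) ∪ (E0 \ K)) := by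
          refine measure_mono fun v hv => ?_
          by_cases h : v ∈ E0
          · exact Or.inr ⟨h, hv.2⟩
          · exact Or.inl ⟨hv.1, h⟩
      _ ≤ volume (U \ E0) + volume (E0 \ K) := measure_union_le _ _
      _ ≤ ε + ε := add_le_add hU.le hK.le
  have hBf : volume B ≠ ∞ := ne_top_of_le_ne_top (by simp) hBle
  set A : ℝ := (n ^ 2 + 1) * (C * n) + n / |s| + |s| * n + C * n with hA
  have hCA : C * n ≤ A := by
    have : 0 ≤ (n ^ 2 + 1) * (C * n) + n / |s| + |s| * n := by positivity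
    linarith
  have hA0 : 0 ≤ A := le_trans (by positivity) hCA
  set m : ℝ := min η (min 1 (|s| / (2 * n))) with hmd
  have hm0 : 0 < m := lt_min hη (lt_min one_pos (by positivity))
  have hm1 : m ≤ η := min_le_left _ _
  have hm2 : m ≤ 1 := (min_le_right _ _).trans (min_le_left _ _)
  have hm3 : m ≤ |s| / (2 * n) := (min_le_right _ _).trans (min_le_right _ _)
  set ρ : ℝ := m / (A + 1) with hρd
  have hρ : 0 < ρ := by positivity
  have hρe : A * ρ + ρ = m := by rw [hρd]; field_simp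
  have hAρ : 0 ≤ A * ρ := by positivity
  have hρ1 : ρ ≤ 1 := by linarith
  have hCρ : C * n * ρ ≤ |s| / (2 * n) := by
    have := mul_le_mul_of_nonneg_right hCA hρ.le
    linarith
  let sl : ℝ × ℝ → ℝ := fun v => v.1 / v.2
  have hsl : Measurable sl := measurable_fst.div measurable_snd
  have : IsFiniteMeasure (volume.restrict D) := isFiniteMeasure_restrict.2 hDf
  have : IsFiniteMeasure (volume.restrict B) := isFiniteMeasure_restrict.2 hBf
  have hac : Measure.map sl (volume.restrict D) ≪ volume := by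
    refine Measure.AbsolutelyContinuous.mk fun N hN h0 => ?_
    rw [Measure.map_apply hsl hN, Measure.restrict_apply (hsl hN)]
    refine measure_mono_null (fun v hv => ?_) (slope_null N hN h0)
    refine ⟨?_, hv.1⟩
    have : 0 < |v.2| := lt_of_lt_of_le (by positivity) hv.2.2.1
    exact abs_pos.1 this
  have main := diff_lemma (Measure.map sl (volume.restrict D)) (Measure.map sl (volume.restrict B))
    hac c hc' L ρ C hL1 hρ (by
      intro θ Δ hΔ hΔ1
      have hδ : 0 < Real.sqrt Δ := Real.sqrt_pos.2 hΔ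
      have hδ2 : Real.sqrt Δ ^ 2 = Δ := Real.sq_sqrt hΔ.le
      obtain ⟨M, w, hM, hw, hw', he, hae⟩ := H θ _ hδ
      have hg := act_conj θ _ hδ M w s hs hw he
      rw [hδ2] at hg
      set g := (hm θ _ hδ.ne')⁻¹ * M * hm θ _ hδ.ne' with hgd
      set θ' := θ + Δ * (w.1 / w.2) with hθ'
      refine ⟨θ', ?_, ?_⟩
      · have e : θ' - θ = Δ * (w.1 / w.2) := by rw [hθ']; ring
        rw [e, abs_mul, abs_of_pos hΔ, mul_comm, abs_div]
        refine mul_le_mul_of_nonneg_right ?_ hΔ.le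
        rw [div_le_iff₀ (abs_pos.2 hw)]
        exact hw'
      · rw [Measure.map_apply hsl measurableSet_closedBall,
          Measure.map_apply hsl measurableSet_closedBall,
          Measure.restrict_apply (hsl measurableSet_closedBall),
          Measure.restrict_apply (hsl measurableSet_closedBall)]
        set W := sl ⁻¹' closedBall θ' (L * (ρ * Δ)) ∩ B with hW
        have hWm : MeasurableSet W := (hsl measurableSet_closedBall).inter hBm
        have incl : (sl ⁻¹' closedBall θ' (ρ * Δ) ∩ D : Set (ℝ × ℝ)) ≤ᵐ[volume]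
            ((act g ⁻¹' W) ∪ ((fun v : ℝ × ℝ => s • v) ⁻¹' W) : Set (ℝ × ℝ)) := by
          filter_upwards [hae] with v hv hv'
          have hv1 : act g v ∈ E ↔ v ∈ E' := Iff.of_eq hv
          obtain ⟨hv2, hv3, hv4, hv5⟩ := hv'
          have hv2' : |v.1 / v.2 - θ'| ≤ ρ * Δ := by
            simpa [sl, Real.dist_eq] using hv2
          obtain ⟨g1, g2⟩ := geom s C n ρ Δ θ' (M 0 1) v hs hn hρ hρ1 hΔ hΔ1 (hM 0 1) hCρ hv4 hv5
            hv2'
          rw [← hg v] at g1
          have g1' : dist (act g v) (s • v) ≤ m := by linarith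
          have s1 : act g v ∈ sl ⁻¹' closedBall θ' (L * (ρ * Δ)) := by
            rw [hg v]
            simpa [sl, Real.dist_eq] using g2
          have s2 : s • v ∈ sl ⁻¹' closedBall θ' (L * (ρ * Δ)) := by
            have e : sl (s • v) = v.1 / v.2 := by
              simp only [sl, Prod.smul_fst, Prod.smul_snd, smul_eq_mul]
              exact mul_div_mul_left _ _ hs
            rw [mem_preimage, e, mem_closedBall, Real.dist_eq]
            have : 0 ≤ ρ * Δ := by positivity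
            nlinarith
          have n2 : ‖s • v‖ ≤ |s| * n := by
            rw [norm_smul, Real.norm_eq_abs]
            exact mul_le_mul_of_nonneg_left hv5 hsa.le
          have b2 : s • v ∈ closedBall (0 : ℝ × ℝ) (|s| * n + 1) := by
            rw [mem_closedBall_zero_iff]; linarith
          have b1 : act g v ∈ closedBall (0 : ℝ × ℝ) (|s| * n + 1) := by
            rw [mem_closedBall]
            have := dist_triangle (act g v) (s • v) 0
            rw [dist_zero_right (s • v)] at this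
            linarith
          by_cases h1 : act g v ∈ E
          · have h2 : s • v ∉ E := fun h => hv3 ⟨fun _ => h, fun _ => hv1.1 h1⟩
            by_cases h3 : act g v ∈ K
            · refine Or.inr ⟨s2, hηU (mem_cthickening_of_dist_le _ _ _ _ h3 ?_),
                fun h => h2 (hKE h).1⟩
              rw [dist_comm]; linarith
            · exact Or.inl ⟨s1, hEU ⟨h1, b1⟩, h3⟩
          · have h2 : s • v ∈ E := by
              by_contra h
              exact hv3 ⟨fun h' => absurd (hv1.2 h') h1, fun h' => absurd h' h⟩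
            by_cases h3 : s • v ∈ K
            · refine Or.inl ⟨s1, hηU (mem_cthickening_of_dist_le _ _ _ _ h3 ?_),
                fun h => h1 (hKE h).1⟩
              linarith
            · exact Or.inr ⟨s2, hEU ⟨h2, b2⟩, h3⟩
        calc volume (sl ⁻¹' closedBall θ' (ρ * Δ) ∩ D)
            ≤ volume ((act g ⁻¹' W) ∪ ((fun v : ℝ × ℝ => s • v) ⁻¹' W)) := measure_mono_ae incl
          _ ≤ volume (act g ⁻¹' W) + volume ((fun v : ℝ × ℝ => s • v) ⁻¹' W) :=
              measure_union_le _ _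
          _ = c * volume W := by
              rw [(measurePreserving_act g).measure_preimage hWm.nullMeasurableSet,
                Measure.addHaar_preimage_smul _ hs, hc, add_mul, one_mul])
  rw [Measure.map_apply hsl MeasurableSet.univ, Measure.map_apply hsl MeasurableSet.univ,
    preimage_univ, Measure.restrict_apply_univ, Measure.restrict_apply_univ] at main
  have : c * ENNReal.ofReal L * volume B ≤ ε * (c * ENNReal.ofReal L * 2) := by
    calc c * ENNReal.ofReal L * volume B ≤ c * ENNReal.ofReal L * (ε + ε) := by gcongr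
      _ = ε * (c * ENNReal.ofReal L * 2) := by ring
  exact absurd (main.trans this) (not_le.2 hεlt)

/-- The window lemma. -/
theorem window (E E' : Set (ℝ × ℝ)) (hE : MeasurableSet E) (hE' : MeasurableSet E') (s C : ℝ)
    (hs : s ≠ 0)
    (H : ∀ (θ δ : ℝ) (hδ : 0 < δ), ∃ (M : SL(2, ℝ)) (w : ℝ × ℝ), (∀ i j, |M i j| ≤ C) ∧ w.2 ≠ 0 ∧
      |w.1| ≤ C * |w.2| ∧ act M w = s • w ∧
      (act ((hm θ δ hδ.ne')⁻¹ * M * hm θ δ hδ.ne')) ⁻¹' E =ᵐ[volume] E') :
    E' =ᵐ[volume] (fun v : ℝ × ℝ => s • v) ⁻¹' E := by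
  have h0 : volume {v : ℝ × ℝ | v.2 = 0} = 0 := by
    have : {v : ℝ × ℝ | v.2 = 0} = (univ : Set ℝ) ×ˢ ({0} : Set ℝ) := by
      ext v; simp
    rw [this, Measure.volume_eq_prod, Measure.prod_prod]
    simp
  have h1 : volume (⋃ k : ℕ, ({v : ℝ × ℝ | ¬ (v ∈ E' ↔ s • v ∈ E)} ∩
      {v | 1 / ((k : ℝ) + 1) ≤ |v.2| ∧ ‖v‖ ≤ (k : ℝ) + 1})) = 0 :=
    measure_iUnion_null fun k => strip E E' hE hE' s C hs H _
      (by have : (0 : ℝ) ≤ k := Nat.cast_nonneg k; linarith)
  rw [Filter.eventuallyEq_set, ae_iff]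
  refine measure_mono_null (fun v hv => ?_) (measure_union_null h0 h1)
  by_cases hy : v.2 = 0
  · exact Or.inl hy
  · right
    have hy0 : 0 < |v.2| := abs_pos.2 hy
    obtain ⟨k, hk⟩ := exists_nat_ge (max (1 / |v.2|) ‖v‖)
    refine mem_iUnion.2 ⟨k, hv, ?_, ?_⟩
    · have : 1 / |v.2| ≤ (k : ℝ) + 1 := by linarith [le_max_left (1 / |v.2|) ‖v‖]
      rw [div_le_iff₀ (by positivity)]
      rw [div_le_iff₀ hy0] at this
      linarith
    · linarith [le_max_right (1 / |v.2|) ‖v‖]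

end Pool.Agent.H268Z
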